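import Mathlib

/-!
Running time of graph bootstrap percolation: basic definitions and the random subset argument.
-/

set_option autoImplicit false

namespace Pool.Agent.H47.BootstrapTime

open SimpleGraph

/-- One round of the `H`-process: every pair of distinct vertices whose addition increases the
number of copies of `H` (subgraphs isomorphic to `H`) becomes an edge. -/
noncomputable def step {V W : Type} [Fintype V] (H : SimpleGraph W) (G : SimpleGraph V) :
    SimpleGraph V where
  Adj u v := G.Adj u v ∨ (u ≠ v ∧ G.copyCount H < (G ⊔ SimpleGraph.edge u v).copyCount H)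
  symm := ⟨by
    rintro u v (h | ⟨h1, h2⟩)
    · exact Or.inl h.symm
    · exact Or.inr ⟨h1.symm, by rwa [SimpleGraph.edge_comm]⟩⟩
  loopless := ⟨by
    rintro u (h | h)
    · exact G.loopless.irrefl u h
    · exact h.1 rfl⟩

/-- The graph `G_i` of the `H`-process started at `G`. -/
noncomputable def proc {V W : Type} [Fintype V] (H : SimpleGraph W) (G : SimpleGraph V) (i : ℕ) :
    SimpleGraph V := (step H)^[i] G

/-- The running time `τ_H(G)`: the least `t` with `G_t = G_{t+1}`. -/
noncomputable def runningTime {V W : Type} [Fintype V] (H : SimpleGraph W) (G : SimpleGraph V) : ℕ :=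
  sInf {t : ℕ | proc H G t = proc H G (t + 1)}

open scoped Classical in
/-- The maximum running time `M_H(n)` over all graphs on `n` vertices. -/
noncomputable def maxTime {W : Type} (H : SimpleGraph W) (n : ℕ) : ℕ :=
  Finset.univ.sup (fun G : SimpleGraph (Fin n) => runningTime H G)

section Basic

variable {V W : Type} [Fintype V]

theorem le_step (H : SimpleGraph W) (G : SimpleGraph V) : G ≤ step H G := by
  intro u v h
  exact Or.inl h

theorem card_filter_inst {α : Type} (p : α → Prop) (i1 i2 : Fintype α) (d1 d2 : DecidablePred p) :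
    (@Finset.filter α p d1 (@Finset.univ α i1)).card =
    (@Finset.filter α p d2 (@Finset.univ α i2)).card := by
  cases Subsingleton.elim i1 i2
  cases Subsingleton.elim d1 d2
  rfl

theorem copyCount_lt (H : SimpleGraph W) (G : SimpleGraph V) (φ : W → V)
    (hφ : Function.Injective φ) (a b : W) (hab : H.Adj a b) (hn : ¬ G.Adj (φ a) (φ b))
    (hrest : ∀ x y, H.Adj x y → s(x, y) ≠ s(a, b) → G.Adj (φ x) (φ y)) :
    G.copyCount H < (G ⊔ SimpleGraph.edge (φ a) (φ b)).copyCount H := by
  classical
  set G' := G ⊔ SimpleGraph.edge (φ a) (φ b) with hG'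
  have hle : G ≤ G' := le_sup_left
  have hadj : ∀ x y, H.Adj x y → G'.Adj (φ x) (φ y) := by
    intro x y hxy
    by_cases hs : s(x, y) = s(a, b)
    · refine Or.inr ?_
      rw [SimpleGraph.edge_adj]
      have hne : φ x ≠ φ y := fun h => hxy.ne (hφ h)
      rw [Sym2.eq_iff] at hs
      rcases hs with ⟨rfl, rfl⟩ | ⟨rfl, rfl⟩
      · exact ⟨Or.inl ⟨rfl, rfl⟩, hne⟩
      · exact ⟨Or.inr ⟨rfl, rfl⟩, hne⟩
    · exact Or.inl (hrest x y hxy hs)
  let c : SimpleGraph.Copy H G' := ⟨⟨φ, fun {x y} h => hadj x y h⟩, hφ⟩
  -- the inclusion of subgraphs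
  let ι : G.Subgraph → G'.Subgraph := fun X =>
    { verts := X.verts
      Adj := X.Adj
      adj_sub := fun h => hle (X.adj_sub h)
      edge_vert := fun h => X.edge_vert h
      symm := X.symm }
  have hι : Function.Injective ι := by
    intro X Y h
    have h1 : (ι X).verts = (ι Y).verts := by rw [h]
    have h2 : (ι X).Adj = (ι Y).Adj := by rw [h]
    exact SimpleGraph.Subgraph.ext h1 h2
  unfold SimpleGraph.copyCount
  have hsub : (Finset.univ.filter (fun X : G.Subgraph => Nonempty (H ≃g X.coe))).image ι ⊂
      Finset.univ.filter (fun X : G'.Subgraph => Nonempty (H ≃g X.coe)) := by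
    rw [Finset.ssubset_iff_of_subset]
    · refine ⟨c.toSubgraph, ?_, ?_⟩
      · simp only [Finset.mem_filter, Finset.mem_univ, true_and]
        exact ⟨c.isoToSubgraph⟩
      · intro hmem
        rw [Finset.mem_image] at hmem
        obtain ⟨X, -, hX⟩ := hmem
        have h1 : (c.toSubgraph).Adj (φ a) (φ b) := by
          simp only [SimpleGraph.Copy.toSubgraph, SimpleGraph.Subgraph.map_adj]
          exact ⟨a, b, by simpa using hab, rfl, rfl⟩
        rw [← hX] at h1
        exact hn (X.adj_sub h1)
    · intro Y hY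
      rw [Finset.mem_image] at hY
      obtain ⟨X, hX, rfl⟩ := hY
      simp only [Finset.mem_filter, Finset.mem_univ, true_and] at hX ⊢
      obtain ⟨e⟩ := hX
      exact ⟨⟨e.toEquiv, by intro x y; exact e.map_rel_iff'⟩⟩
  have := Finset.card_lt_card hsub
  rw [Finset.card_image_of_injective _ hι] at this
  exact lt_of_eq_of_lt (card_filter_inst _ _ _ _ _)
    (lt_of_lt_of_eq this (card_filter_inst _ _ _ _ _))

theorem step_new (H : SimpleGraph W) (G : SimpleGraph V) (φ : W → V)
    (hφ : Function.Injective φ) (a b : W) (hab : H.Adj a b)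
    (hrest : ∀ x y, H.Adj x y → s(x, y) ≠ s(a, b) → G.Adj (φ x) (φ y)) :
    (step H G).Adj (φ a) (φ b) := by
  by_cases hn : G.Adj (φ a) (φ b)
  · exact Or.inl hn
  · exact Or.inr ⟨fun h => hab.ne (hφ h), copyCount_lt H G φ hφ a b hab hn hrest⟩

theorem proc_succ (H : SimpleGraph W) (G : SimpleGraph V) (i : ℕ) :
    proc H G (i + 1) = step H (proc H G i) := by
  unfold proc
  rw [Function.iterate_succ_apply']

theorem proc_mono (H : SimpleGraph W) (G : SimpleGraph V) : Monotone (proc H G) := by
  apply monotone_nat_of_le_succ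
  intro i
  rw [proc_succ]
  exact le_step H _

end Basic

end Pool.Agent.H47.BootstrapTime
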