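import Mathlib

/-!
The random subset argument: counting colour classes.
-/

set_option autoImplicit false

namespace Pool.Agent.H47.Sampling

open Finset

section

variable {V : Type} [Fintype V] [DecidableEq V]

/-- the first colour class of a colouring -/
def cls {k : ℕ} (χ : V → Fin (k + 1)) : Finset V := univ.filter (fun v => χ v = 0)

theorem mem_cls {k : ℕ} (χ : V → Fin (k + 1)) (v : V) : v ∈ cls χ ↔ χ v = 0 := by
  simp [cls]

/-- number of colourings whose first class contains `D` -/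
def num (k : ℕ) (D : Finset V) : ℝ :=
  ((univ.filter (fun χ : V → Fin (k + 1) => D ⊆ cls χ)).card : ℝ)

theorem num_mul (k : ℕ) (D : Finset V) :
    num k D * ((k : ℝ) + 1) ^ D.card = ((k : ℝ) + 1) ^ (Fintype.card V) := by
  have h1 : univ.filter (fun χ : V → Fin (k + 1) => D ⊆ cls χ) =
      Fintype.piFinset (fun v => if v ∈ D then ({0} : Finset (Fin (k + 1))) else univ) := by
    ext χ
    simp only [mem_filter, mem_univ, true_and, Fintype.mem_piFinset]
    constructor
    · intro h v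
      by_cases hv : v ∈ D
      · simp only [hv, if_true, mem_singleton]
        exact (mem_cls χ v).1 (h hv)
      · simp [hv]
    · intro h v hv
      have := h v
      simp only [hv, if_true, mem_singleton] at this
      exact (mem_cls χ v).2 this
  unfold num
  rw [h1, Fintype.card_piFinset]
  have h2 : ∀ v : V, (if v ∈ D then ({0} : Finset (Fin (k + 1))) else univ).card =
      if v ∈ D then 1 else (k + 1) := by
    intro v
    split_ifs <;> simp
  simp only [h2]
  rw [prod_ite]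
  simp only [prod_const_one, one_mul, prod_const]
  have h3 : (univ.filter (fun v => v ∉ D)).card + D.card = Fintype.card V := by
    have := Finset.card_compl_add_card D
    rw [← this]
    congr 2
    ext v
    simp
  push_cast
  rw [← pow_add, h3]

theorem num_eq (k : ℕ) (D : Finset V) :
    num k D = ((k : ℝ) + 1) ^ (Fintype.card V) / ((k : ℝ) + 1) ^ D.card := by
  have hK : (0 : ℝ) < ((k : ℝ) + 1) ^ D.card := by positivity
  rw [eq_div_iff hK.ne', num_mul]

/-- `f` is the only element of `Wi` inside `P`, and it lies in `Fi`. -/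
def iso (Fi Wi : Finset (Sym2 V)) (P : Finset V) (f : Sym2 V) : Prop :=
  f ∈ Fi ∧ f.toFinset ⊆ P ∧ ∀ g ∈ Wi, g.toFinset ⊆ P → g = f

instance (Fi Wi : Finset (Sym2 V)) (P : Finset V) (f : Sym2 V) : Decidable (iso Fi Wi P f) := by
  unfold iso; infer_instance

theorem card_union_ge (f g : Sym2 V) (hf : ¬ f.IsDiag) (hg : ¬ g.IsDiag) (hfg : g ≠ f) :
    3 ≤ (f.toFinset ∪ g.toFinset).card := by
  by_contra hlt
  push Not at hlt
  have hf2 := Sym2.card_toFinset_of_not_isDiag f hf
  have hg2 := Sym2.card_toFinset_of_not_isDiag g hg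
  have h1 : f.toFinset = f.toFinset ∪ g.toFinset :=
    eq_of_subset_of_card_le subset_union_left (by omega)
  have h2 : g.toFinset = f.toFinset ∪ g.toFinset :=
    eq_of_subset_of_card_le subset_union_right (by omega)
  have h3 : g.toFinset = f.toFinset := h2.trans h1.symm
  apply hfg
  apply Sym2.ext
  intro x
  rw [← Sym2.mem_toFinset, ← Sym2.mem_toFinset, h3]

theorem iso_count (k : ℕ) (Fi Wi : Finset (Sym2 V)) (hW : ∀ g ∈ Wi, ¬ g.IsDiag)
    (hFW : Fi ⊆ Wi) (f : Sym2 V) (hf : f ∈ Fi) :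
    ((k : ℝ) + 1) ^ (Fintype.card V) * (1 / ((k : ℝ) + 1) ^ 2 - Wi.card / ((k : ℝ) + 1) ^ 3) ≤
      ((univ.filter (fun χ : V → Fin (k + 1) => iso Fi Wi (cls χ) f)).card : ℝ) := by
  have hK1 : (1 : ℝ) ≤ (k : ℝ) + 1 := by
    have : (0 : ℝ) ≤ k := Nat.cast_nonneg k
    linarith
  have hK : (0 : ℝ) < (k : ℝ) + 1 := by linarith
  have hfd : ¬ f.IsDiag := hW f (hFW hf)
  have hsub : univ.filter (fun χ : V → Fin (k + 1) => f.toFinset ⊆ cls χ) ⊆
      univ.filter (fun χ : V → Fin (k + 1) => iso Fi Wi (cls χ) f) ∪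
      (Wi.erase f).biUnion (fun g =>
        univ.filter (fun χ : V → Fin (k + 1) => f.toFinset ∪ g.toFinset ⊆ cls χ)) := by
    intro χ hχ
    simp only [mem_filter, mem_univ, true_and] at hχ
    rw [mem_union]
    by_cases h : ∀ g ∈ Wi, g.toFinset ⊆ cls χ → g = f
    · left
      simp only [mem_filter, mem_univ, true_and]
      exact ⟨hf, hχ, h⟩
    · right
      push Not at h
      obtain ⟨g, hg1, hg2, hg3⟩ := h
      rw [mem_biUnion]
      refine ⟨g, mem_erase.2 ⟨hg3, hg1⟩, ?_⟩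
      simp only [mem_filter, mem_univ, true_and]
      exact union_subset hχ hg2
  have h1 := (card_le_card hsub).trans (card_union_le _ _)
  have h2 := card_biUnion_le (s := Wi.erase f) (t := fun g =>
        univ.filter (fun χ : V → Fin (k + 1) => f.toFinset ∪ g.toFinset ⊆ cls χ))
  have h3 : num k f.toFinset ≤
      ((univ.filter (fun χ : V → Fin (k + 1) => iso Fi Wi (cls χ) f)).card : ℝ) +
      ∑ g ∈ Wi.erase f, num k (f.toFinset ∪ g.toFinset) := by
    unfold num
    have h4 := h1.trans (Nat.add_le_add_left h2 _)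
    exact_mod_cast h4
  have h5 : ∑ g ∈ Wi.erase f, num k (f.toFinset ∪ g.toFinset) ≤
      ∑ _g ∈ Wi.erase f, ((k : ℝ) + 1) ^ (Fintype.card V) / ((k : ℝ) + 1) ^ 3 := by
    apply sum_le_sum
    intro g hg
    rw [num_eq]
    have hge := card_union_ge f g hfd (hW g (mem_of_mem_erase hg)) (ne_of_mem_erase hg)
    apply div_le_div_of_nonneg_left (by positivity) (by positivity)
    exact pow_le_pow_right₀ hK1 hge
  rw [sum_const, nsmul_eq_mul] at h5
  have h6 : ((Wi.erase f).card : ℝ) ≤ Wi.card := by exact_mod_cast card_erase_le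
  have h7 : ((Wi.erase f).card : ℝ) * (((k : ℝ) + 1) ^ (Fintype.card V) / ((k : ℝ) + 1) ^ 3) ≤
      Wi.card * (((k : ℝ) + 1) ^ (Fintype.card V) / ((k : ℝ) + 1) ^ 3) :=
    mul_le_mul_of_nonneg_right h6 (by positivity)
  rw [num_eq, Sym2.card_toFinset_of_not_isDiag f hfd] at h3
  have h8 : ((k : ℝ) + 1) ^ (Fintype.card V) * (1 / ((k : ℝ) + 1) ^ 2 - Wi.card / ((k : ℝ) + 1) ^ 3)
      = ((k : ℝ) + 1) ^ (Fintype.card V) / ((k : ℝ) + 1) ^ 2 -
        Wi.card * (((k : ℝ) + 1) ^ (Fintype.card V) / ((k : ℝ) + 1) ^ 3) := by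
    ring
  rw [h8]
  linarith

theorem sum_card_cls (k : ℕ) :
    ∑ χ : V → Fin (k + 1), ((cls χ).card : ℝ) =
      Fintype.card V * ((k : ℝ) + 1) ^ (Fintype.card V) / ((k : ℝ) + 1) := by
  have h1 : ∀ χ : V → Fin (k + 1), ((cls χ).card : ℝ) = ∑ v : V, if ({v} : Finset V) ⊆ cls χ then (1 : ℝ) else 0 := by
    intro χ
    rw [sum_boole]
    congr 2
    ext v
    simp
  simp only [h1]
  rw [sum_comm]
  have h2 : ∀ v : V, ∑ χ : V → Fin (k + 1), (if ({v} : Finset V) ⊆ cls χ then (1 : ℝ) else 0) =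
      ((k : ℝ) + 1) ^ (Fintype.card V) / ((k : ℝ) + 1) := by
    intro v
    rw [sum_boole]
    have := num_eq k ({v} : Finset V)
    rw [card_singleton, pow_one] at this
    exact this
  simp only [h2]
  rw [sum_const, nsmul_eq_mul, card_univ]
  ring

theorem sum_offDiag_cls (k : ℕ) :
    ∑ χ : V → Fin (k + 1), (((cls χ).card : ℝ) * ((cls χ).card - 1)) ≤
      (Fintype.card V : ℝ) ^ 2 * ((k : ℝ) + 1) ^ (Fintype.card V) / ((k : ℝ) + 1) ^ 2 := by
  have h1 : ∀ χ : V → Fin (k + 1), (((cls χ).card : ℝ) * ((cls χ).card - 1)) =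
      ∑ p ∈ (univ : Finset V).offDiag, if ({p.1, p.2} : Finset V) ⊆ cls χ then (1 : ℝ) else 0 := by
    intro χ
    rw [sum_boole]
    have h2 : (univ : Finset V).offDiag.filter (fun p => ({p.1, p.2} : Finset V) ⊆ cls χ) =
        (cls χ).offDiag := by
      ext p
      simp only [mem_filter, mem_offDiag, mem_univ, true_and, insert_subset_iff,
        singleton_subset_iff]
      tauto
    rw [h2, offDiag_card]
    have h3 : (cls χ).card ≤ (cls χ).card * (cls χ).card := Nat.le_mul_self _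
    push_cast [Nat.cast_sub h3]
    ring
  simp only [h1]
  rw [sum_comm]
  have h2 : ∀ p ∈ (univ : Finset V).offDiag,
      ∑ χ : V → Fin (k + 1), (if ({p.1, p.2} : Finset V) ⊆ cls χ then (1 : ℝ) else 0) =
      ((k : ℝ) + 1) ^ (Fintype.card V) / ((k : ℝ) + 1) ^ 2 := by
    intro p hp
    rw [sum_boole]
    have := num_eq k ({p.1, p.2} : Finset V)
    rw [card_pair (mem_offDiag.1 hp).2.2] at this
    exact this
  rw [sum_congr rfl h2, sum_const, nsmul_eq_mul]
  have h3 : (((univ : Finset V).offDiag.card : ℕ) : ℝ) ≤ (Fintype.card V : ℝ) ^ 2 := by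
    rw [offDiag_card, card_univ]
    have : Fintype.card V * Fintype.card V - Fintype.card V ≤ Fintype.card V ^ 2 := by
      rw [sq]; exact Nat.sub_le _ _
    exact_mod_cast this
  have h4 : (0 : ℝ) ≤ ((k : ℝ) + 1) ^ (Fintype.card V) / ((k : ℝ) + 1) ^ 2 := by positivity
  calc _ ≤ (Fintype.card V : ℝ) ^ 2 * (((k : ℝ) + 1) ^ (Fintype.card V) / ((k : ℝ) + 1) ^ 2) :=
        mul_le_mul_of_nonneg_right h3 h4
    _ = _ := by ring

theorem young (α lam : ℝ) (h1 : 1 < α) (h2 : α ≤ 2) (hl : 0 < lam) (m : ℕ) (hm : 2 ≤ m) :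
    (m : ℝ) ^ α ≤ lam ^ (α - 1) * m + 2 * lam ^ (α - 2) * (m * (m - 1)) := by
  have hm0 : (0 : ℝ) < m := by
    have : (2 : ℝ) ≤ m := by exact_mod_cast hm
    linarith
  have hm2 : (2 : ℝ) ≤ m := by exact_mod_cast hm
  have e1 : (0 : ℝ) < lam ^ (α - 1) := Real.rpow_pos_of_pos hl _
  have e2 : (0 : ℝ) < lam ^ (α - 2) := Real.rpow_pos_of_pos hl _
  have hmm : (m : ℝ) ^ 2 ≤ 2 * (m * (m - 1)) := by nlinarith
  rcases le_or_gt (m : ℝ) lam with hle | hgt
  · have h3 : (m : ℝ) ^ α = m * (m : ℝ) ^ (α - 1) := by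
      rw [Real.rpow_sub_one hm0.ne']
      field_simp
    have h4 : (m : ℝ) ^ (α - 1) ≤ lam ^ (α - 1) :=
      Real.rpow_le_rpow hm0.le hle (by linarith)
    have h5 : (0 : ℝ) ≤ 2 * lam ^ (α - 2) * (m * (m - 1)) := by
      have : (0 : ℝ) ≤ (m : ℝ) - 1 := by linarith
      positivity
    rw [h3]
    nlinarith [mul_le_mul_of_nonneg_left h4 hm0.le]
  · have h3 : (m : ℝ) ^ α = (m : ℝ) ^ 2 * (m : ℝ) ^ (α - 2) := by
      rw [← Real.rpow_natCast (m : ℝ) 2, ← Real.rpow_add hm0]
      congr 1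
      push_cast
      ring
    have h4 : (m : ℝ) ^ (α - 2) ≤ lam ^ (α - 2) :=
      Real.rpow_le_rpow_of_nonpos hl hgt.le (by linarith)
    have h6 : (m : ℝ) ^ 2 * (m : ℝ) ^ (α - 2) ≤ (m : ℝ) ^ 2 * lam ^ (α - 2) :=
      mul_le_mul_of_nonneg_left h4 (by positivity)
    have h7 : (m : ℝ) ^ 2 * lam ^ (α - 2) ≤ 2 * (m * (m - 1)) * lam ^ (α - 2) :=
      mul_le_mul_of_nonneg_right hmm e2.le
    have h8 : (0 : ℝ) ≤ lam ^ (α - 1) * m := by positivity
    rw [h3]
    nlinarith

/-- the selected edges inside `P` -/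
def sel (F Wd : ℕ → Finset (Sym2 V)) (T : ℕ) (P : Finset V) : Finset (Sym2 V) :=
  (Icc 1 T).biUnion (fun i => (F i).filter (fun f => iso (F i) (Wd i) P f))

theorem sel_eq_empty (F Wd : ℕ → Finset (Sym2 V)) (T : ℕ) (P : Finset V)
    (hFW : ∀ i, F i ⊆ Wd i) (hW : ∀ i, ∀ g ∈ Wd i, ¬ g.IsDiag) (hP : P.card ≤ 1) :
    sel F Wd T P = ∅ := by
  rw [eq_empty_iff_forall_notMem]
  intro f hf
  unfold sel at hf
  rw [mem_biUnion] at hf
  obtain ⟨i, -, hf⟩ := hf
  rw [mem_filter] at hf
  have h1 := hf.2.2.1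
  have h2 := card_le_card h1
  rw [Sym2.card_toFinset_of_not_isDiag f (hW i f (hFW i hf.1))] at h2
  omega

/-- The main counting inequality: times `i ∈ J` with at least `q` new edges and few edges in the
window. -/
theorem sampling (k T : ℕ) (F Wd : ℕ → Finset (Sym2 V)) (hV : 0 < Fintype.card V)
    (hFW : ∀ i, F i ⊆ Wd i) (hW : ∀ i, ∀ g ∈ Wd i, ¬ g.IsDiag)
    (hdisj : ∀ i j, i ≠ j → Disjoint (F i) (F j)) (A α : ℝ) (hA : 0 ≤ A) (h1 : 1 < α)
    (h2 : α ≤ 2)
    (hbound : ∀ P : Finset V, ((sel F Wd T P).card : ℝ) ≤ A * (P.card : ℝ) ^ α)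
    (J : Finset ℕ) (hJ : J ⊆ Icc 1 T) (q : ℝ) (hq0 : 0 ≤ q) (hq : ∀ i ∈ J, q ≤ (F i).card)
    (hw : ∀ i ∈ J, ((Wd i).card : ℝ) ≤ ((k : ℝ) + 1) / 2) :
    (J.card : ℝ) * q * (1 / (2 * ((k : ℝ) + 1) ^ 2)) ≤
      3 * A * ((Fintype.card V : ℝ) / ((k : ℝ) + 1)) ^ α := by
  classical
  set n : ℝ := (Fintype.card V : ℝ) with hn
  set K : ℝ := (k : ℝ) + 1 with hKdef
  have hK : 0 < K := by positivity
  have hn0 : 0 < n := by rw [hn]; exact_mod_cast hV
  set lam := n / K with hlam
  have hl : 0 < lam := div_pos hn0 hK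
  -- upper bound
  have hup : ∑ χ : V → Fin (k + 1), ((sel F Wd T (cls χ)).card : ℝ) ≤
      3 * A * lam ^ α * K ^ (Fintype.card V) := by
    have h3 : ∀ χ : V → Fin (k + 1), ((sel F Wd T (cls χ)).card : ℝ) ≤
        A * (lam ^ (α - 1) * (cls χ).card + 2 * lam ^ (α - 2) *
          ((cls χ).card * ((cls χ).card - 1))) := by
      intro χ
      rcases Nat.lt_or_ge (cls χ).card 2 with hlt | hge
      · rw [sel_eq_empty F Wd T _ hFW hW (by omega)]
        simp only [card_empty, Nat.cast_zero]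
        have e1 : (0 : ℝ) < lam ^ (α - 1) := Real.rpow_pos_of_pos hl _
        have hc : (cls χ).card = 0 ∨ (cls χ).card = 1 := by omega
        rcases hc with hc | hc
        · rw [hc]; simp
        · rw [hc]
          simp only [Nat.cast_one, sub_self, mul_zero, add_zero, mul_one]
          positivity
      · refine (hbound _).trans ?_
        exact mul_le_mul_of_nonneg_left (young α lam h1 h2 hl _ hge) hA
    refine (sum_le_sum (fun χ _ => h3 χ)).trans ?_
    rw [← mul_sum, sum_add_distrib, ← mul_sum, ← mul_sum, sum_card_cls]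
    have h4 := sum_offDiag_cls (V := V) k
    have e2 : (0 : ℝ) < lam ^ (α - 2) := Real.rpow_pos_of_pos hl _
    have h5 : 2 * lam ^ (α - 2) * ∑ χ : V → Fin (k + 1), (((cls χ).card : ℝ) * ((cls χ).card - 1)) ≤
        2 * lam ^ (α - 2) * (n ^ 2 * K ^ (Fintype.card V) / K ^ 2) :=
      mul_le_mul_of_nonneg_left h4 (by positivity)
    have h6 : lam ^ (α - 1) * (n * K ^ (Fintype.card V) / K) = lam ^ α * K ^ (Fintype.card V) := by
      have : lam ^ α = lam ^ (α - 1) * lam := by
        rw [Real.rpow_sub_one hl.ne']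
        field_simp
      rw [this, hlam]
      ring
    have h7 : 2 * lam ^ (α - 2) * (n ^ 2 * K ^ (Fintype.card V) / K ^ 2) =
        2 * lam ^ α * K ^ (Fintype.card V) := by
      have : lam ^ α = lam ^ (α - 2) * lam ^ 2 := by
        rw [← Real.rpow_natCast lam 2, ← Real.rpow_add hl]
        congr 1
        push_cast
        ring
      rw [this, hlam]
      ring
    have h8 : lam ^ (α - 1) * (n * K ^ (Fintype.card V) / K) +
        2 * lam ^ (α - 2) * ∑ χ : V → Fin (k + 1), (((cls χ).card : ℝ) * ((cls χ).card - 1)) ≤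
        3 * lam ^ α * K ^ (Fintype.card V) := by
      rw [h6]
      rw [h7] at h5
      linarith
    calc _ ≤ A * (3 * lam ^ α * K ^ (Fintype.card V)) := mul_le_mul_of_nonneg_left h8 hA
      _ = _ := by ring
  -- lower bound
  have hlow : (J.card : ℝ) * q * (1 / (2 * K ^ 2)) * K ^ (Fintype.card V) ≤
      ∑ χ : V → Fin (k + 1), ((sel F Wd T (cls χ)).card : ℝ) := by
    have h3 : ∀ χ : V → Fin (k + 1),
        ∑ i ∈ J, (((F i).filter (fun f => iso (F i) (Wd i) (cls χ) f)).card : ℝ) ≤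
        ((sel F Wd T (cls χ)).card : ℝ) := by
      intro χ
      have h4 : (J.biUnion (fun i => (F i).filter (fun f => iso (F i) (Wd i) (cls χ) f))).card =
          ∑ i ∈ J, ((F i).filter (fun f => iso (F i) (Wd i) (cls χ) f)).card := by
        apply card_biUnion
        intro i _ j _ hij
        exact (hdisj i j hij).mono (filter_subset _ _) (filter_subset _ _)
      have h5 : J.biUnion (fun i => (F i).filter (fun f => iso (F i) (Wd i) (cls χ) f)) ⊆
          sel F Wd T (cls χ) := biUnion_subset_biUnion_of_subset_left _ hJ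
      have h6 := card_le_card h5
      rw [h4] at h6
      exact_mod_cast h6
    refine le_trans ?_ (sum_le_sum (fun χ _ => h3 χ))
    rw [sum_comm]
    have h4 : ∀ i ∈ J, q * (1 / (2 * K ^ 2)) * K ^ (Fintype.card V) ≤
        ∑ χ : V → Fin (k + 1), (((F i).filter (fun f => iso (F i) (Wd i) (cls χ) f)).card : ℝ) := by
      intro i hi
      have h5 : ∑ χ : V → Fin (k + 1), (((F i).filter (fun f => iso (F i) (Wd i) (cls χ) f)).card : ℝ)
          = ∑ f ∈ F i, ((univ.filter (fun χ : V → Fin (k + 1) =>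
            iso (F i) (Wd i) (cls χ) f)).card : ℝ) := by
        have h6 : ∀ χ : V → Fin (k + 1),
            (((F i).filter (fun f => iso (F i) (Wd i) (cls χ) f)).card : ℝ) =
            ∑ f ∈ F i, if iso (F i) (Wd i) (cls χ) f then (1 : ℝ) else 0 := by
          intro χ
          rw [sum_boole]
        simp only [h6]
        rw [sum_comm]
        apply sum_congr rfl
        intro f _
        rw [sum_boole]
      rw [h5]
      have h7 : ∀ f ∈ F i, (1 / (2 * K ^ 2)) * K ^ (Fintype.card V) ≤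
          ((univ.filter (fun χ : V → Fin (k + 1) => iso (F i) (Wd i) (cls χ) f)).card : ℝ) := by
        intro f hf
        refine le_trans ?_ (iso_count k (F i) (Wd i) (hW i) (hFW i) f hf)
        have h8 := hw i hi
        have h9 : ((Wd i).card : ℝ) / K ^ 3 ≤ (K / 2) / K ^ 3 :=
          div_le_div_of_nonneg_right h8 (by positivity)
        have h10 : (K / 2) / K ^ 3 = 1 / (2 * K ^ 2) := by
          field_simp
        have h11 : 1 / K ^ 2 - ((Wd i).card : ℝ) / K ^ 3 ≥ 1 / (2 * K ^ 2) := by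
          have : 1 / K ^ 2 = 2 * (1 / (2 * K ^ 2)) := by field_simp
          rw [this]
          linarith
        have h12 : (0 : ℝ) ≤ K ^ (Fintype.card V) := by positivity
        rw [mul_comm]
        exact mul_le_mul_of_nonneg_left h11 h12
      calc q * (1 / (2 * K ^ 2)) * K ^ (Fintype.card V)
          ≤ ((F i).card : ℝ) * (1 / (2 * K ^ 2)) * K ^ (Fintype.card V) := by
            have := hq i hi
            have h12 : (0 : ℝ) ≤ (1 / (2 * K ^ 2)) * K ^ (Fintype.card V) := by positivity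
            nlinarith [mul_le_mul_of_nonneg_right this h12]
        _ = ∑ _f ∈ F i, (1 / (2 * K ^ 2)) * K ^ (Fintype.card V) := by
            rw [sum_const, nsmul_eq_mul]; ring
        _ ≤ _ := sum_le_sum h7
    calc (J.card : ℝ) * q * (1 / (2 * K ^ 2)) * K ^ (Fintype.card V)
        = ∑ _i ∈ J, q * (1 / (2 * K ^ 2)) * K ^ (Fintype.card V) := by
          rw [sum_const, nsmul_eq_mul]; ring
      _ ≤ _ := sum_le_sum h4
  have hfin := hlow.trans hup
  have hKn : (0 : ℝ) < K ^ (Fintype.card V) := by positivity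
  exact le_of_mul_le_mul_right hfin hKn

end

end Pool.Agent.H47.Sampling
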