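import Mathlib

/-!
A lemma on finite sequences: every index is close to a balanced index with a large value.
-/

set_option autoImplicit false

namespace Pool.Agent.H47.SeqLemma

open Finset

/-- `i` is balanced: its neighbours have at most four times its value -/
def Bal (b : ℕ → ℕ) (i : ℕ) : Prop := b (i - 1) ≤ 4 * b i ∧ b (i + 1) ≤ 4 * b i

instance (b : ℕ → ℕ) (i : ℕ) : Decidable (Bal b i) := by unfold Bal; infer_instance

theorem exists_bal (T : ℕ) (b : ℕ → ℕ) (hb : ∀ i ∈ Icc 1 T, 1 ≤ b i) (h0 : b 0 = 0)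
    (hT : b (T + 1) = 0) (i : ℕ) (hi : i ∈ Icc 1 T) :
    ∃ j ∈ Icc 1 T, Bal b j ∧ 4 ^ (Nat.dist i j) ≤ b j := by
  obtain ⟨j, hj, hmax⟩ := exists_max_image (Icc 1 T) (fun j => b j * 4 ^ (T - Nat.dist i j)) ⟨i, hi⟩
  simp only [mem_Icc] at hi hj
  have hd : Nat.dist i j + 1 ≤ T := by
    unfold Nat.dist; omega
  have hpos : ∀ m : ℕ, 0 < 4 ^ m := fun m => Nat.pow_pos (by norm_num)
  refine ⟨j, mem_Icc.2 hj, ⟨?_, ?_⟩, ?_⟩
  · by_cases h1 : j = 1
    · subst h1; simp [h0]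
    · have hm := hmax (j - 1) (mem_Icc.2 ⟨by omega, by omega⟩)
      have hd2 : T - (Nat.dist i j + 1) ≤ T - Nat.dist i (j - 1) := by
        unfold Nat.dist; omega
      have h3 : b (j - 1) * 4 ^ (T - (Nat.dist i j + 1)) ≤ b j * 4 ^ (T - Nat.dist i j) :=
        (Nat.mul_le_mul_left _ (Nat.pow_le_pow_right (by norm_num) hd2)).trans hm
      have h4 : T - Nat.dist i j = (T - (Nat.dist i j + 1)) + 1 := by omega
      rw [h4, pow_succ] at h3
      have h5 : b (j - 1) * 4 ^ (T - (Nat.dist i j + 1)) ≤ (4 * b j) * 4 ^ (T - (Nat.dist i j + 1)) := by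
        calc _ ≤ _ := h3
          _ = _ := by ring
      exact Nat.le_of_mul_le_mul_right h5 (hpos _)
  · by_cases h1 : j = T
    · subst h1; simp [hT]
    · have hm := hmax (j + 1) (mem_Icc.2 ⟨by omega, by omega⟩)
      have hd2 : T - (Nat.dist i j + 1) ≤ T - Nat.dist i (j + 1) := by
        unfold Nat.dist; omega
      have h3 : b (j + 1) * 4 ^ (T - (Nat.dist i j + 1)) ≤ b j * 4 ^ (T - Nat.dist i j) :=
        (Nat.mul_le_mul_left _ (Nat.pow_le_pow_right (by norm_num) hd2)).trans hm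
      have h4 : T - Nat.dist i j = (T - (Nat.dist i j + 1)) + 1 := by omega
      rw [h4, pow_succ] at h3
      have h5 : b (j + 1) * 4 ^ (T - (Nat.dist i j + 1)) ≤ (4 * b j) * 4 ^ (T - (Nat.dist i j + 1)) := by
        calc _ ≤ _ := h3
          _ = _ := by ring
      exact Nat.le_of_mul_le_mul_right h5 (hpos _)
  · have hm := hmax i (mem_Icc.2 hi)
    simp only [Nat.dist_self, Nat.sub_zero] at hm
    have h1 := hb i (mem_Icc.2 hi)
    have h3 : 4 ^ T ≤ b j * 4 ^ (T - Nat.dist i j) := by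
      calc 4 ^ T = 1 * 4 ^ T := by ring
        _ ≤ b i * 4 ^ T := Nat.mul_le_mul_right _ h1
        _ ≤ _ := hm
    have h4 : 4 ^ T = 4 ^ (Nat.dist i j) * 4 ^ (T - Nat.dist i j) := by
      rw [← pow_add]; congr 1; omega
    rw [h4] at h3
    exact Nat.le_of_mul_le_mul_right h3 (hpos _)

theorem le_sum (T : ℕ) (b : ℕ → ℕ) (hb : ∀ i ∈ Icc 1 T, 1 ≤ b i) (h0 : b 0 = 0)
    (hT : b (T + 1) = 0) :
    T ≤ ∑ j ∈ (Icc 1 T).filter (Bal b), (2 * Nat.log 4 (b j) + 1) := by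
  have hsub : Icc 1 T ⊆ ((Icc 1 T).filter (Bal b)).biUnion
      (fun j => Icc (j - Nat.log 4 (b j)) (j + Nat.log 4 (b j))) := by
    intro i hi
    obtain ⟨j, hj, hbal, hge⟩ := exists_bal T b hb h0 hT i hi
    rw [mem_biUnion]
    refine ⟨j, mem_filter.2 ⟨hj, hbal⟩, ?_⟩
    have hbj : b j ≠ 0 := by
      have := hb j hj; omega
    have h1 : Nat.dist i j ≤ Nat.log 4 (b j) := Nat.le_log_of_pow_le (by norm_num) hge
    rw [mem_Icc]
    unfold Nat.dist at h1
    omega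
  have h1 := card_le_card hsub
  rw [Nat.card_Icc, Nat.add_sub_cancel] at h1
  refine h1.trans (card_biUnion_le.trans ?_)
  apply sum_le_sum
  intro j _
  rw [Nat.card_Icc]
  omega

end Pool.Agent.H47.SeqLemma
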