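import Mathlib
import Pool.Agent.H47.Sampling
import Pool.Agent.H47.SeqLemma

/-!
The resulting bound for the number of rounds.
-/

set_option autoImplicit false

namespace Pool.Agent.H47.TimeBound

open Finset Pool.Agent.H47.Sampling Pool.Agent.H47.SeqLemma

theorem level_bound {V : Type} [Fintype V] [DecidableEq V] (T : ℕ) (F Wd : ℕ → Finset (Sym2 V))
    (hV : 0 < Fintype.card V)
    (hFW : ∀ i, F i ⊆ Wd i) (hW : ∀ i, ∀ g ∈ Wd i, ¬ g.IsDiag)
    (hdisj : ∀ i j, i ≠ j → Disjoint (F i) (F j)) (A α : ℝ) (hA : 0 ≤ A) (h1 : 1 < α)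
    (h2 : α ≤ 2)
    (hbound : ∀ P : Finset V, ((sel F Wd T P).card : ℝ) ≤ A * (P.card : ℝ) ^ α)
    (hF : ∀ i ∈ Icc 1 T, 1 ≤ (F i).card)
    (hwin : ∀ i ∈ Icc 1 T, (Wd i).card ≤ (F (i - 1)).card + (F i).card + (F (i + 1)).card)
    (j : ℕ) :
    (((Icc 1 T).filter (fun i => Bal (fun i => (F i).card) i ∧ Nat.log 4 (F i).card = j)).card : ℝ) ≤
      (6 * A * (4 : ℝ) ^ (8 - 4 * α) * (Fintype.card V : ℝ) ^ α) * ((4 : ℝ) ^ (1 - α)) ^ j := by
  set J := (Icc 1 T).filter (fun i => Bal (fun i => (F i).card) i ∧ Nat.log 4 (F i).card = j) with hJ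
  set n : ℝ := (Fintype.card V : ℝ) with hn
  have hn0 : 0 < n := by rw [hn]; exact_mod_cast hV
  have hpos : 0 < 4 ^ (j + 4) := Nat.pow_pos (by norm_num)
  obtain ⟨k, hk⟩ : ∃ k : ℕ, k + 1 = 4 ^ (j + 4) := ⟨4 ^ (j + 4) - 1, by omega⟩
  have hk' : (k : ℝ) + 1 = (4 : ℝ) ^ (j + 4) := by exact_mod_cast hk
  have key := sampling k T F Wd hV hFW hW hdisj A α hA h1 h2 hbound J (filter_subset _ _)
    ((4 : ℝ) ^ j) (by positivity) ?_ ?_
  · rw [hk'] at key
    have hx : (0 : ℝ) < (4 : ℝ) ^ j := by positivity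
    -- turn everything into powers of four
    have e1 : (n / (4 : ℝ) ^ (j + 4)) ^ α = n ^ α * ((4 : ℝ) ^ (-(((j : ℝ) + 4) * α))) := by
      rw [Real.div_rpow hn0.le (by positivity), Real.rpow_neg (by norm_num), ← Real.rpow_natCast,
        ← Real.rpow_mul (by norm_num), div_eq_mul_inv]
      push_cast
      rfl
    have e2 : ((4 : ℝ) ^ (1 - α)) ^ j = (4 : ℝ) ^ ((1 - α) * j) := by
      rw [← Real.rpow_natCast, ← Real.rpow_mul (by norm_num)]
    have e3 : (4 : ℝ) ^ j * (1 / (2 * ((4 : ℝ) ^ (j + 4)) ^ 2)) =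
        (4 : ℝ) ^ (-(j : ℝ) - 8) / 2 := by
      have h3 : (4 : ℝ) ^ (-(j : ℝ) - 8) = 1 / ((4 : ℝ) ^ (j + 8)) := by
        rw [← Real.rpow_natCast, one_div, ← Real.rpow_neg (by norm_num)]
        congr 1
        push_cast
        ring
      rw [h3]
      have h4 : ((4 : ℝ) ^ (j + 4)) ^ 2 = (4 : ℝ) ^ j * (4 : ℝ) ^ (j + 8) := by
        rw [← pow_mul, ← pow_add]
        congr 1
        ring
      rw [h4]
      field_simp
    rw [e1] at key
    rw [e2]
    have key2 : (J.card : ℝ) * ((4 : ℝ) ^ (-(j : ℝ) - 8) / 2) ≤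
        3 * A * (n ^ α * ((4 : ℝ) ^ (-(((j : ℝ) + 4) * α)))) := by
      rw [← e3]
      calc _ = (J.card : ℝ) * (4 : ℝ) ^ j * (1 / (2 * ((4 : ℝ) ^ (j + 4)) ^ 2)) := by ring
        _ ≤ _ := key
    have hp : (0 : ℝ) < (4 : ℝ) ^ (-(j : ℝ) - 8) := Real.rpow_pos_of_pos (by norm_num) _
    have key3 : (J.card : ℝ) ≤
        3 * A * (n ^ α * ((4 : ℝ) ^ (-(((j : ℝ) + 4) * α)))) / ((4 : ℝ) ^ (-(j : ℝ) - 8) / 2) := by
      rw [le_div_iff₀ (by positivity)]
      exact key2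
    refine key3.trans (le_of_eq ?_)
    have e4 : (4 : ℝ) ^ (8 - 4 * α) * (4 : ℝ) ^ ((1 - α) * j) * (4 : ℝ) ^ (-(j : ℝ) - 8) =
        (4 : ℝ) ^ (-(((j : ℝ) + 4) * α)) := by
      rw [← Real.rpow_add (by norm_num), ← Real.rpow_add (by norm_num)]
      congr 1
      ring
    rw [← e4]
    field_simp
    ring
  · intro i hi
    rw [hJ, mem_filter] at hi
    have h3 : (F i).card ≠ 0 := by
      have := hF i hi.1; omega
    have h4 := Nat.pow_log_le_self 4 h3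
    rw [hi.2.2] at h4
    exact_mod_cast h4
  · intro i hi
    rw [hJ, mem_filter] at hi
    obtain ⟨hi1, ⟨hb1, hb2⟩, hlog⟩ := hi
    have hb1' : (F (i - 1)).card ≤ 4 * (F i).card := hb1
    have hb2' : (F (i + 1)).card ≤ 4 * (F i).card := hb2
    have h3 := hwin i hi1
    have h4 : (F i).card < 4 ^ (j + 1) := by
      rw [← hlog]
      exact Nat.lt_pow_succ_log_self (by norm_num) _
    have h5 : 2 * (Wd i).card ≤ 4 ^ (j + 4) := by
      have h6 : 4 ^ (j + 4) = 64 * 4 ^ (j + 1) := by ring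
      rw [h6]
      omega
    rw [hk']
    have h7 : (2 : ℝ) * (Wd i).card ≤ (4 : ℝ) ^ (j + 4) := by exact_mod_cast h5
    linarith

theorem time_bound (A α : ℝ) (hA : 0 ≤ A) (h1 : 1 < α) (h2 : α ≤ 2) :
    ∃ C : ℝ, 0 ≤ C ∧ ∀ (V : Type) [Fintype V] [DecidableEq V] (T : ℕ) (F Wd : ℕ → Finset (Sym2 V))
    (_ : 0 < Fintype.card V)
    (_ : ∀ i, F i ⊆ Wd i) (_ : ∀ i, ∀ g ∈ Wd i, ¬ g.IsDiag)
    (_ : ∀ i j, i ≠ j → Disjoint (F i) (F j))
    (_ : ∀ P : Finset V, ((sel F Wd T P).card : ℝ) ≤ A * (P.card : ℝ) ^ α)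
    (_ : ∀ i ∈ Icc 1 T, 1 ≤ (F i).card) (_ : (F 0).card = 0) (_ : (F (T + 1)).card = 0)
    (_ : ∀ i ∈ Icc 1 T, (Wd i).card ≤ (F (i - 1)).card + (F i).card + (F (i + 1)).card),
    (T : ℝ) ≤ C * (Fintype.card V : ℝ) ^ α := by
  set r : ℝ := (4 : ℝ) ^ (1 - α) with hr
  have hr0 : 0 < r := Real.rpow_pos_of_pos (by norm_num) _
  have hr1 : r < 1 := by
    rw [hr]
    exact Real.rpow_lt_one_of_one_lt_of_neg (by norm_num) (by linarith)
  have hs : Summable (fun j : ℕ => (2 * (j : ℝ) + 1) * r ^ j) := by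
    have hs1 : Summable (fun j : ℕ => (j : ℝ) ^ 1 * r ^ j) := by
      apply summable_pow_mul_geometric_of_norm_lt_one
      rw [Real.norm_eq_abs, abs_of_pos hr0]
      exact hr1
    have hs2 : Summable (fun j : ℕ => r ^ j) := summable_geometric_of_lt_one hr0.le hr1
    have hs3 := (hs1.mul_left 2).add hs2
    refine hs3.congr ?_
    intro j
    ring
  set S := ∑' j : ℕ, (2 * (j : ℝ) + 1) * r ^ j with hS
  have hS0 : 0 ≤ S := tsum_nonneg (fun j => by positivity)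
  refine ⟨6 * A * (4 : ℝ) ^ (8 - 4 * α) * S, by positivity, ?_⟩
  intro V _ _ T F Wd hV hFW hW hdisj hbound hF hF0 hFT hwin
  have hseq := le_sum T (fun i => (F i).card) hF hF0 hFT
  have hn0 : (0 : ℝ) < (Fintype.card V : ℝ) := by exact_mod_cast hV
  set L := (∑ j ∈ (Icc 1 T).filter (Bal (fun i => (F i).card)), (Nat.log 4 (F j).card)) + 1 with hL
  have hfib : ∑ j ∈ (Icc 1 T).filter (Bal (fun i => (F i).card)), (2 * Nat.log 4 (F j).card + 1) =
      ∑ l ∈ range L, (2 * l + 1) *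
        ((Icc 1 T).filter (fun i => Bal (fun i => (F i).card) i ∧ Nat.log 4 (F i).card = l)).card := by
    rw [← sum_fiberwise_of_maps_to (t := range L) (g := fun j => Nat.log 4 (F j).card)]
    · apply sum_congr rfl
      intro l _
      have h3 : ∀ i ∈ ((Icc 1 T).filter (Bal (fun i => (F i).card))).filter
          (fun i => Nat.log 4 (F i).card = l), 2 * Nat.log 4 (F i).card + 1 = 2 * l + 1 := by
        intro i hi
        rw [(mem_filter.1 hi).2]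
      rw [sum_congr rfl h3, sum_const, smul_eq_mul, mul_comm, filter_filter]
    · intro i hi
      rw [mem_range, hL]
      have := single_le_sum (f := fun j => Nat.log 4 (F j).card) (fun _ _ => Nat.zero_le _) hi
      omega
  rw [hfib] at hseq
  have hseq' : (T : ℝ) ≤ ∑ l ∈ range L, (2 * (l : ℝ) + 1) *
      (((Icc 1 T).filter (fun i => Bal (fun i => (F i).card) i ∧
        Nat.log 4 (F i).card = l)).card : ℝ) := by
    exact_mod_cast hseq
  have h4 : ∑ l ∈ range L, (2 * (l : ℝ) + 1) *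
      (((Icc 1 T).filter (fun i => Bal (fun i => (F i).card) i ∧
        Nat.log 4 (F i).card = l)).card : ℝ) ≤
      ∑ l ∈ range L, (6 * A * (4 : ℝ) ^ (8 - 4 * α) * (Fintype.card V : ℝ) ^ α) *
        ((2 * (l : ℝ) + 1) * r ^ l) := by
    apply sum_le_sum
    intro l _
    have h5 := level_bound T F Wd hV hFW hW hdisj A α hA h1 h2 hbound hF hwin l
    have h6 : (0 : ℝ) ≤ 2 * (l : ℝ) + 1 := by positivity
    calc _ ≤ (2 * (l : ℝ) + 1) * ((6 * A * (4 : ℝ) ^ (8 - 4 * α) * (Fintype.card V : ℝ) ^ α) *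
          ((4 : ℝ) ^ (1 - α)) ^ l) := mul_le_mul_of_nonneg_left h5 h6
      _ = _ := by ring
  have h7 : ∑ l ∈ range L, (2 * (l : ℝ) + 1) * r ^ l ≤ S :=
    hs.sum_le_tsum _ (fun j _ => by positivity)
  rw [← mul_sum] at h4
  have h8 : (0 : ℝ) ≤ 6 * A * (4 : ℝ) ^ (8 - 4 * α) * (Fintype.card V : ℝ) ^ α := by positivity
  calc (T : ℝ) ≤ _ := hseq'
    _ ≤ _ := h4
    _ ≤ (6 * A * (4 : ℝ) ^ (8 - 4 * α) * (Fintype.card V : ℝ) ^ α) * S :=
        mul_le_mul_of_nonneg_left h7 h8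
    _ = _ := by ring

end Pool.Agent.H47.TimeBound
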