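import Mathlib
import Pool.Agent.H47.BootstrapTime
import Pool.Agent.H47.TimeBound

/-!
Applying the counting argument to the `H`-process.
-/

set_option autoImplicit false

namespace Pool.Agent.H47.ProcessBound

open Finset SimpleGraph Pool.Agent.H47.BootstrapTime Pool.Agent.H47.Sampling
  Pool.Agent.H47.TimeBound

open scoped Classical

section

variable {n : ℕ} {W : Type} (H : SimpleGraph W) (G : SimpleGraph (Fin n))

theorem card_edge_inst {V : Type} (G : SimpleGraph V) (i1 i2 : Fintype G.edgeSet) :
    (@SimpleGraph.edgeFinset V G i1).card = (@SimpleGraph.edgeFinset V G i2).card := by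
  cases Subsingleton.elim i1 i2
  rfl

/-- edges of `G_i` -/
noncomputable def E (i : ℕ) : Finset (Sym2 (Fin n)) := (proc H G i).edgeFinset

/-- edges added in round `i` -/
noncomputable def Fr (i : ℕ) : Finset (Sym2 (Fin n)) := E H G i \ E H G (i - 1)

/-- edges added in rounds `i-1`, `i`, `i+1` -/
noncomputable def Wn (i : ℕ) : Finset (Sym2 (Fin n)) := E H G (i + 1) \ E H G (i - 2)

theorem mem_E (i : ℕ) (x y : Fin n) : s(x, y) ∈ E H G i ↔ (proc H G i).Adj x y := by
  unfold E
  rw [SimpleGraph.mem_edgeFinset, SimpleGraph.mem_edgeSet]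

theorem E_mono {i j : ℕ} (h : i ≤ j) : E H G i ⊆ E H G j := by
  unfold E
  exact SimpleGraph.edgeFinset_mono (proc_mono H G h)

theorem Fr_subset_Wn (i : ℕ) : Fr H G i ⊆ Wn H G i := by
  intro f hf
  unfold Fr at hf
  unfold Wn
  rw [mem_sdiff] at hf ⊢
  exact ⟨E_mono H G (by omega) hf.1, fun h => hf.2 (E_mono H G (by omega) h)⟩

theorem Wn_card (i : ℕ) (hi : 1 ≤ i) :
    (Wn H G i).card ≤ (Fr H G (i - 1)).card + (Fr H G i).card + (Fr H G (i + 1)).card := by
  have hsub : Wn H G i ⊆ (Fr H G (i - 1) ∪ Fr H G i) ∪ Fr H G (i + 1) := by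
    intro f hf
    unfold Wn at hf
    rw [mem_sdiff] at hf
    by_cases h1 : f ∈ E H G i
    · by_cases h2 : f ∈ E H G (i - 1)
      · rw [mem_union, mem_union]
        left; left
        unfold Fr
        rw [mem_sdiff]
        have : i - 1 - 1 = i - 2 := by omega
        rw [this]
        exact ⟨h2, hf.2⟩
      · rw [mem_union, mem_union]
        left; right
        unfold Fr
        rw [mem_sdiff]
        exact ⟨h1, h2⟩
    · rw [mem_union]
      right
      unfold Fr
      rw [mem_sdiff, Nat.add_sub_cancel]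
      exact ⟨hf.1, h1⟩
  refine (card_le_card hsub).trans ?_
  refine (card_union_le _ _).trans ?_
  have := card_union_le (Fr H G (i - 1)) (Fr H G i)
  omega

theorem Fr_disjoint (i j : ℕ) (hij : i ≠ j) : Disjoint (Fr H G i) (Fr H G j) := by
  have key : ∀ a b : ℕ, a < b → Disjoint (Fr H G a) (Fr H G b) := by
    intro a b hab
    rw [Finset.disjoint_left]
    intro f hf hf'
    unfold Fr at hf hf'
    rw [mem_sdiff] at hf hf'
    exact hf'.2 (E_mono H G (by omega) hf.1)
  rcases lt_or_gt_of_ne hij with h | h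
  · exact key i j h
  · exact (key j i h).symm

theorem Wn_not_diag (i : ℕ) : ∀ g ∈ Wn H G i, ¬ g.IsDiag := by
  intro g hg
  unfold Wn E at hg
  rw [mem_sdiff, SimpleGraph.mem_edgeFinset] at hg
  exact SimpleGraph.not_isDiag_of_mem_edgeSet _ hg.1

theorem Fr_zero : (Fr H G 0).card = 0 := by
  unfold Fr
  simp

theorem proc_eq_of_Fr_empty (i : ℕ) (hi : 1 ≤ i) (h : Fr H G i = ∅) :
    proc H G (i - 1) = proc H G i := by
  apply le_antisymm (proc_mono H G (by omega))
  unfold Fr E at h
  rw [sdiff_eq_empty_iff_subset, SimpleGraph.edgeFinset_subset_edgeFinset] at h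
  exact h

theorem Fr_pos (i : ℕ) (hi : i ∈ Icc 1 (runningTime H G)) : 1 ≤ (Fr H G i).card := by
  rw [mem_Icc] at hi
  by_contra hlt
  have h0 : Fr H G i = ∅ := by
    rw [← card_eq_zero]; omega
  have h1 := proc_eq_of_Fr_empty H G i hi.1 h0
  have h2 : i - 1 < sInf {t : ℕ | proc H G t = proc H G (t + 1)} := by
    have := hi.2
    unfold runningTime at this
    omega
  have h3 := Nat.notMem_of_lt_sInf h2
  apply h3
  simp only [Set.mem_ofPred_eq]
  rw [h1]
  congr 1
  omega

theorem Fr_end (hT : 1 ≤ runningTime H G) : (Fr H G (runningTime H G + 1)).card = 0 := by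
  have hne : {t : ℕ | proc H G t = proc H G (t + 1)}.Nonempty := by
    apply Nat.nonempty_of_pos_sInf
    unfold runningTime at hT
    omega
  have h1 := Nat.sInf_mem hne
  have h2 : proc H G (runningTime H G) = proc H G (runningTime H G + 1) := h1
  unfold Fr E
  rw [Nat.add_sub_cancel, card_eq_zero, sdiff_eq_empty_iff_subset,
    SimpleGraph.edgeFinset_subset_edgeFinset]
  exact h2.symm.le

/-- The graph of selected edges inside `P` contains no copy of `H` minus an edge. -/
theorem sel_card_le [Fintype W] (e : Sym2 W) (he : e ∈ H.edgeSet)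
    (h3 : 3 ≤ H.edgeFinset.card) (T : ℕ) (P : Finset (Fin n)) :
    (sel (Fr H G) (Wn H G) T P).card ≤ extremalNumber P.card (H.deleteEdges {e}) := by
  set S := sel (Fr H G) (Wn H G) T P with hS
  have hSmem : ∀ f ∈ S, ∃ i, 1 ≤ i ∧ iso (Fr H G i) (Wn H G i) P f := by
    intro f hf
    rw [hS] at hf
    unfold sel at hf
    rw [mem_biUnion] at hf
    obtain ⟨i, hi, hf⟩ := hf
    rw [mem_filter] at hf
    exact ⟨i, (mem_Icc.1 hi).1, hf.2⟩
  have hdiag : ∀ f ∈ S, ¬ f.IsDiag := by
    intro f hf
    obtain ⟨i, -, h⟩ := hSmem f hf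
    exact Wn_not_diag H G i f (Fr_subset_Wn H G i h.1)
  set GS : SimpleGraph (Fin n) := SimpleGraph.fromEdgeSet (S : Set (Sym2 (Fin n))) with hGS
  have hedge : GS.edgeFinset = S := by
    ext f
    rw [SimpleGraph.mem_edgeFinset, hGS, SimpleGraph.edgeSet_fromEdgeSet]
    simp only [Set.mem_sdiff, mem_coe]
    constructor
    · intro h; exact h.1
    · intro h; exact ⟨h, hdiag f h⟩
  have hsupp : GS.support ⊆ (P : Set (Fin n)) := by
    intro x hx
    rw [SimpleGraph.mem_support] at hx
    obtain ⟨y, hxy⟩ := hx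
    rw [hGS, SimpleGraph.fromEdgeSet_adj] at hxy
    obtain ⟨i, -, h⟩ := hSmem _ hxy.1
    have h2 := h.2.1
    apply h2
    rw [Sym2.mem_toFinset]
    exact Sym2.mem_mk_left x y
  have hcard : (GS.induce (P : Set (Fin n))).edgeFinset.card = S.card := by
    have h4 : (GS.induce (P : Set (Fin n))).edgeFinset.card = GS.edgeFinset.card :=
      (card_edge_inst _ _ _).trans
        ((SimpleGraph.card_edgeFinset_induce_of_support_subset hsupp).trans
          (card_edge_inst _ _ _))
    exact h4.trans (congrArg Finset.card hedge)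
  have hfree : (H.deleteEdges {e}).Free (GS.induce (P : Set (Fin n))) := by
    rintro ⟨c⟩
    set φ : W → Fin n := fun w => (c w : Fin n) with hφ
    have hinj : Function.Injective φ := by
      intro x y h
      exact c.injective (Subtype.ext h)
    have hφP : ∀ w, φ w ∈ P := fun w => (c w).2
    have hmemS : ∀ x y, (H.deleteEdges {e}).Adj x y → s(φ x, φ y) ∈ S := by
      intro x y hxy
      have h1 := c.toHom.map_adj hxy
      have h2 : GS.Adj (φ x) (φ y) := h1
      rw [hGS, SimpleGraph.fromEdgeSet_adj] at h2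
      exact h2.1
    -- times
    have hB : ∀ f ∈ (H.deleteEdges {e}).edgeFinset, (f.map φ) ∈ S := by
      intro f hf
      rw [SimpleGraph.mem_edgeFinset] at hf
      induction f with | _ x y =>
      exact hmemS x y hf
    choose! t ht using hSmem
    have hBne : 2 ≤ (H.deleteEdges {e}).edgeFinset.card := by
      have h4 : (H.deleteEdges {e}).edgeFinset = H.edgeFinset.erase e := by
        ext f
        rw [SimpleGraph.mem_edgeFinset, SimpleGraph.edgeSet_deleteEdges, mem_erase,
          SimpleGraph.mem_edgeFinset]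
        simp only [Set.mem_sdiff, Set.mem_singleton_iff]
        tauto
      rw [h4, card_erase_of_mem (by rwa [SimpleGraph.mem_edgeFinset])]
      omega
    obtain ⟨m, hm, hmax⟩ := exists_max_image (H.deleteEdges {e}).edgeFinset
      (fun f => t (f.map φ)) (card_pos.1 (by omega))
    set i := t (m.map φ) with hi
    have hmap : Function.Injective (Sym2.map φ) := Sym2.map.injective hinj
    have hfar : ∀ f ∈ (H.deleteEdges {e}).edgeFinset, f ≠ m → t (f.map φ) + 2 ≤ i := by
      intro f hf hfm
      by_contra hlt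
      push Not at hlt
      have hle := hmax f hf
      have hle' : t (f.map φ) ≤ i := hle
      have h5 := ht _ (hB f hf)
      have h6 := ht _ (hB m hm)
      have h7 : f.map φ ∈ Wn H G i := by
        have h8 := h5.2.1
        unfold Fr at h8
        rw [mem_sdiff] at h8
        unfold Wn
        rw [mem_sdiff]
        exact ⟨E_mono H G (by omega) h8.1, fun h => h8.2 (E_mono H G (by omega) h)⟩
      have h9 := h6.2.2.2 _ h7 h5.2.2.1
      exact hfm (hmap h9)
    have hi3 : 3 ≤ i := by
      obtain ⟨f, hf, hfm⟩ := exists_mem_ne (s := (H.deleteEdges {e}).edgeFinset) (by omega) m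
      have h1 := hfar f hf hfm
      have h2 := (ht _ (hB f hf)).1
      omega
    induction m with | _ x y =>
    induction e with | _ a b =>
    have hmem := ht _ (hB _ hm)
    have hxy : (H.deleteEdges {s(a, b)}).Adj x y := by
      rwa [SimpleGraph.mem_edgeFinset, SimpleGraph.mem_edgeSet] at hm
    have hxyH : H.Adj x y := SimpleGraph.deleteEdges_le _ hxy
    have hxy_ne : s(x, y) ≠ s(a, b) := by
      rw [SimpleGraph.deleteEdges_adj] at hxy
      intro h
      exact hxy.2 (by rw [h]; exact Set.mem_singleton _)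
    have hother : ∀ u v, H.Adj u v → s(u, v) ≠ s(a, b) → s(u, v) ≠ s(x, y) →
        (proc H G (i - 2)).Adj (φ u) (φ v) := by
      intro u v huv h1 h2
      have h4 : s(u, v) ∈ (H.deleteEdges {s(a, b)}).edgeFinset := by
        rw [SimpleGraph.mem_edgeFinset, SimpleGraph.mem_edgeSet, SimpleGraph.deleteEdges_adj]
        exact ⟨huv, by simpa using h1⟩
      have h5 := hfar _ h4 h2
      have h6 := (ht _ (hB _ h4)).2.1
      unfold Fr at h6
      rw [mem_sdiff] at h6
      have h7 : s(φ u, φ v) ∈ E H G (i - 2) := E_mono H G (by omega) h6.1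
      rwa [mem_E] at h7
    have hFi := hmem.2.1
    unfold Fr at hFi
    rw [mem_sdiff] at hFi
    have hFi1 : s(φ x, φ y) ∈ E H G i := hFi.1
    have hFi2 : s(φ x, φ y) ∉ E H G (i - 1) := hFi.2
    rw [mem_E] at hFi1 hFi2
    have hab : H.Adj a b := he
    -- the missing edge is in the next graph
    have hg1 : (proc H G (i + 1)).Adj (φ a) (φ b) := by
      rw [proc_succ]
      apply step_new H _ φ hinj a b hab
      intro u v huv hne
      by_cases h2 : s(u, v) = s(x, y)
      · rw [Sym2.eq_iff] at h2
        rcases h2 with ⟨rfl, rfl⟩ | ⟨rfl, rfl⟩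
        · exact hFi1
        · exact hFi1.symm
      · exact proc_mono H G (by omega) (hother u v huv hne h2)
    have hg2 : ¬ (proc H G (i - 2)).Adj (φ a) (φ b) := by
      intro hg
      apply hFi2
      have h4 : i - 1 = (i - 2) + 1 := by omega
      rw [h4, proc_succ]
      apply step_new H _ φ hinj x y hxyH
      intro u v huv hne
      by_cases h2 : s(u, v) = s(a, b)
      · rw [Sym2.eq_iff] at h2
        rcases h2 with ⟨rfl, rfl⟩ | ⟨rfl, rfl⟩
        · exact hg
        · exact hg.symm
      · exact hother u v huv h2 hne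
    have hgW : s(φ a, φ b) ∈ Wn H G i := by
      unfold Wn
      rw [mem_sdiff, mem_E, mem_E]
      exact ⟨hg1, hg2⟩
    have hgP : (s(φ a, φ b) : Sym2 (Fin n)).toFinset ⊆ P := by
      intro z hz
      rw [Sym2.mem_toFinset, Sym2.mem_iff] at hz
      rcases hz with rfl | rfl
      · exact hφP a
      · exact hφP b
    have hfin := hmem.2.2.2 _ hgW hgP
    have h10 : Sym2.map φ s(a, b) = Sym2.map φ s(x, y) := by
      rw [Sym2.map_mk]; exact hfin
    exact hxy_ne (hmap h10).symm
  have hfin := SimpleGraph.card_edgeFinset_le_extremalNumber hfree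
  have hc : Fintype.card ((P : Set (Fin n)) : Type) = P.card := by simp
  rw [hc] at hfin
  calc S.card = (GS.induce (P : Set (Fin n))).edgeFinset.card := hcard.symm
    _ = _ := card_edge_inst _ _ _
    _ ≤ _ := hfin

/-- If all Turán numbers of `H` minus an edge are at most `A m^α`, `1 < α ≤ 2`, then the running
time is at most `C n^α`. -/
theorem runningTime_le [Fintype W] (e : Sym2 W) (he : e ∈ H.edgeSet)
    (h3 : 3 ≤ H.edgeFinset.card) (A α : ℝ) (hA : 0 ≤ A) (h1 : 1 < α) (h2 : α ≤ 2)
    (hex : ∀ m : ℕ, (extremalNumber m (H.deleteEdges {e}) : ℝ) ≤ A * (m : ℝ) ^ α) :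
    ∃ C : ℝ, 0 ≤ C ∧ ∀ n : ℕ, (maxTime H n : ℝ) ≤ C * (n : ℝ) ^ α := by
  obtain ⟨C, hC0, hC⟩ := time_bound A α hA h1 h2
  refine ⟨C, hC0, ?_⟩
  intro n
  have key : ∀ G : SimpleGraph (Fin n), (runningTime H G : ℝ) ≤ C * (n : ℝ) ^ α := by
    intro G
    rcases Nat.eq_zero_or_pos (runningTime H G) with h0 | hpos
    · rw [h0]
      simp only [Nat.cast_zero]
      positivity
    · have hn : 0 < n := by
        rcases Nat.eq_zero_or_pos n with hn | hn
        · exfalso
          subst hn
          have := Fr_pos H G 1 (mem_Icc.2 ⟨le_refl _, hpos⟩)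
          have h5 : (Fr H G 1) = ∅ := by
            rw [eq_empty_iff_forall_notMem]
            intro f _
            induction f with | _ x y => exact Fin.elim0 x
          rw [h5] at this
          simp at this
        · exact hn
      have := hC (Fin n) (runningTime H G) (Fr H G) (Wn H G) (by simpa using hn)
        (Fr_subset_Wn H G) (Wn_not_diag H G) (Fr_disjoint H G) ?_ (Fr_pos H G) (Fr_zero H G)
        (Fr_end H G hpos) ?_
      · simpa using this
      · intro P
        have h4 := sel_card_le H G e he h3 (runningTime H G) P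
        have h5 : ((sel (Fr H G) (Wn H G) (runningTime H G) P).card : ℝ) ≤
            (extremalNumber P.card (H.deleteEdges {e}) : ℝ) := by exact_mod_cast h4
        exact h5.trans (hex _)
      · intro i hi
        exact Wn_card H G i (mem_Icc.1 hi).1
  unfold maxTime
  rcases (univ : Finset (SimpleGraph (Fin n))).eq_empty_or_nonempty with h0 | hne
  · rw [h0]
    simp only [sup_empty, Nat.bot_eq_zero, Nat.cast_zero]
    positivity
  · obtain ⟨G, -, hG⟩ := exists_mem_eq_sup _ hne (fun G : SimpleGraph (Fin n) => runningTime H G)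
    rw [hG]
    exact key G

end

end Pool.Agent.H47.ProcessBound
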