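import Mathlib
import Pool.Agent.H47.ProcessBound

/-!
Turán numbers grow at least linearly, up to a constant factor.
-/

set_option autoImplicit false

namespace Pool.Agent.H47.SuperAdd

open Finset SimpleGraph

open scoped Classical

/-- `r` disjoint copies of `G` and `s` isolated vertices -/
def rep {U : Type} (r s : ℕ) (G : SimpleGraph U) : SimpleGraph ((Fin r × U) ⊕ Fin s) where
  Adj x y := ∃ (k : Fin r) (a b : U), x = Sum.inl (k, a) ∧ y = Sum.inl (k, b) ∧ G.Adj a b
  symm := ⟨by
    rintro x y ⟨k, a, b, rfl, rfl, h⟩
    exact ⟨k, b, a, rfl, rfl, h.symm⟩⟩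
  loopless := ⟨by
    rintro x ⟨k, a, b, h1, h2, h⟩
    rw [h1] at h2
    have h3 := Sum.inl_injective h2
    rw [Prod.mk.injEq] at h3
    exact h.ne h3.2⟩

theorem rep_card {U : Type} [Fintype U] (r s : ℕ) (G : SimpleGraph U) :
    r * G.edgeFinset.card ≤ (rep r s G).edgeFinset.card := by
  have h1 : ((univ : Finset (Fin r)) ×ˢ G.edgeFinset).card ≤ (rep r s G).edgeFinset.card := by
    apply card_le_card_of_injOn
      (fun p => p.2.map (fun a => (Sum.inl (p.1, a) : (Fin r × U) ⊕ Fin s)))
    · rintro ⟨k, f⟩ hf
      rw [mem_coe, mem_product, SimpleGraph.mem_edgeFinset] at hf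
      rw [mem_coe, SimpleGraph.mem_edgeFinset]
      induction f with | _ a b =>
      exact ⟨k, a, b, rfl, rfl, hf.2⟩
    · rintro ⟨k, f⟩ hf ⟨k', f'⟩ hf' h
      simp only at h
      have hk : k = k' := by
        induction f with | _ a b =>
        induction f' with | _ a' b' =>
        rw [Sym2.map_mk, Sym2.map_mk] at h
        have h2 : (Sum.inl (k, a) : (Fin r × U) ⊕ Fin s) ∈ s(Sum.inl (k, a), Sum.inl (k, b)) :=
          Sym2.mem_mk_left _ _
        rw [h, Sym2.mem_iff] at h2
        rcases h2 with h2 | h2
        · have h3 := Sum.inl_injective h2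
          rw [Prod.mk.injEq] at h3
          exact h3.1
        · have h3 := Sum.inl_injective h2
          rw [Prod.mk.injEq] at h3
          exact h3.1
      subst hk
      have hinj : Function.Injective (fun a : U => (Sum.inl (k, a) : (Fin r × U) ⊕ Fin s)) := by
        intro a b hab
        have h3 := Sum.inl_injective hab
        rw [Prod.mk.injEq] at h3
        exact h3.2
      have := Sym2.map.injective hinj h
      rw [this]
  rw [card_product, card_univ, Fintype.card_fin] at h1
  exact h1

/-- A connected graph with an edge that is contained in `rep r s G` is contained in `G`. -/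
theorem contained_of_rep {U W : Type} (r s : ℕ) (G : SimpleGraph U) (C : SimpleGraph W)
    (hconn : C.Preconnected) (hnb : ∀ w, ∃ v, C.Adj w v) (h : C.IsContained (rep r s G)) :
    C.IsContained G := by
  obtain ⟨c⟩ := h
  have hex : ∀ w, ∃ p : Fin r × U, c w = Sum.inl p := by
    intro w
    obtain ⟨v, hv⟩ := hnb w
    obtain ⟨k, a, b, h1, -, -⟩ := c.toHom.map_adj hv
    exact ⟨(k, a), h1⟩
  choose f hf using hex
  have hadj : ∀ x y, C.Adj x y → (f x).1 = (f y).1 ∧ G.Adj (f x).2 (f y).2 := by
    intro x y hxy
    obtain ⟨k, a, b, h1, h2, h3⟩ := c.toHom.map_adj hxy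
    have e1 : c x = Sum.inl (k, a) := h1
    have e2 : c y = Sum.inl (k, b) := h2
    rw [hf] at e1 e2
    have e3 := Sum.inl_injective e1
    have e4 := Sum.inl_injective e2
    rw [e3, e4]
    exact ⟨rfl, h3⟩
  have hconst : ∀ x y, (f x).1 = (f y).1 := by
    intro x y
    obtain ⟨p⟩ := hconn x y
    induction p with
    | nil => rfl
    | cons h _ ih => exact (hadj _ _ h).1.trans ih
  refine ⟨⟨⟨fun w => (f w).2, fun {x y} hxy => (hadj x y hxy).2⟩, ?_⟩⟩
  intro x y hxy
  have h1 : (f x).2 = (f y).2 := hxy
  have h2 : f x = f y := Prod.ext (hconst x y) h1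
  have h3 : c x = c y := by rw [hf, hf, h2]
  exact c.injective h3

/-- delete all edges at the vertices of `S` -/
def cut {U : Type} (G : SimpleGraph U) (S : Finset U) : SimpleGraph U where
  Adj a b := G.Adj a b ∧ a ∉ S ∧ b ∉ S
  symm := ⟨fun _ _ h => ⟨h.1.symm, h.2.2, h.2.1⟩⟩
  loopless := ⟨fun _ h => h.1.ne rfl⟩

theorem cut_card {U : Type} [Fintype U] (G : SimpleGraph U) (S : Finset U) :
    G.edgeFinset.card ≤ (cut G S).edgeFinset.card + S.card * Fintype.card U := by
  have hsub : G.edgeFinset ⊆ (cut G S).edgeFinset ∪ S.biUnion (fun a => G.incidenceFinset a) := by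
    intro f hf
    rw [mem_union]
    by_cases h : ∃ a ∈ S, a ∈ f
    · right
      obtain ⟨a, ha, haf⟩ := h
      rw [mem_biUnion]
      refine ⟨a, ha, ?_⟩
      rw [SimpleGraph.mem_incidenceFinset]
      exact ⟨by rwa [SimpleGraph.mem_edgeFinset] at hf, haf⟩
    · left
      push Not at h
      rw [SimpleGraph.mem_edgeFinset] at hf ⊢
      induction f with | _ a b =>
      exact ⟨hf, fun ha => h a ha (Sym2.mem_mk_left _ _), fun hb => h b hb (Sym2.mem_mk_right _ _)⟩
  refine (card_le_card hsub).trans ((card_union_le _ _).trans ?_)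
  apply Nat.add_le_add_left
  refine card_biUnion_le.trans ?_
  rw [← smul_eq_mul]
  apply sum_le_card_nsmul
  intro a _
  rw [SimpleGraph.card_incidenceFinset_eq_degree]
  exact (SimpleGraph.degree_lt_card_verts a).le

/-- From a `B`-free graph one obtains, by deleting the edges at few vertices, a graph that is free
of a connected piece of `B`. -/
theorem exists_piece {U W : Type} [Fintype U] [Fintype W] (B : SimpleGraph W) (G : SimpleGraph U)
    (hfree : B.Free G) (hcard : Fintype.card W ≤ Fintype.card U) :
    ∃ (S : Finset U) (D : Set W), S.card ≤ Fintype.card W ∧ (B.induce D).Preconnected ∧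
      (∀ w : D, ∃ v : D, (B.induce D).Adj w v) ∧ (B.induce D).Free (cut G S) := by
  obtain ⟨ι⟩ := Function.Embedding.nonempty_of_card_le hcard
  let Good : Finset W → Prop := fun S =>
    (∀ x ∈ S, ∀ y, B.Adj x y → y ∈ S) ∧ ∃ φ : W → U, Set.InjOn φ S ∧
      ∀ x ∈ S, ∀ y ∈ S, B.Adj x y → G.Adj (φ x) (φ y)
  have hgood0 : Good ∅ := ⟨by simp, ι, by simp, by simp⟩
  obtain ⟨S, hS, hmax⟩ := exists_max_image ((univ : Finset (Finset W)).filter Good)
    (fun S => S.card) ⟨∅, by simp [hgood0]⟩
  rw [mem_filter] at hS
  obtain ⟨-, hclosed, φ, hφ, hφadj⟩ := hS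
  have hmax' : ∀ S' : Finset W, Good S' → S'.card ≤ S.card := by
    intro S' h
    exact hmax S' (by simp [h])
  have hne : S ≠ univ := by
    intro h
    apply hfree
    refine ⟨⟨⟨φ, fun {x y} hxy => hφadj x (by rw [h]; exact mem_univ _) y
      (by rw [h]; exact mem_univ _) hxy⟩, ?_⟩⟩
    intro x y hxy
    exact hφ (by rw [h]; simp) (by rw [h]; simp) hxy
  obtain ⟨w, hw⟩ : ∃ w, w ∉ S := by
    by_contra hno
    push Not at hno
    exact hne (eq_univ_of_forall hno)
  have hreach : ∀ x y, B.Reachable x y → x ∈ S → y ∈ S := by
    have h1 : ∀ (x y : W) (p : B.Walk x y), x ∈ S → y ∈ S := by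
      intro x y p
      induction p with
      | nil => exact fun hx => hx
      | cons h _ ih => exact fun hx => ih (hclosed _ hx _ h)
    rintro x y ⟨p⟩ hx
    exact h1 x y p hx
  set D : Set W := {v | B.Reachable w v} with hD
  have hDS : ∀ v ∈ D, v ∉ S := by
    intro v hv hvS
    exact hw (hreach v w (SimpleGraph.Reachable.symm hv) hvS)
  have hDclosed : ∀ x ∈ D, ∀ y, B.Adj x y → y ∈ D := by
    intro x hxD y hxy
    have hx1 : B.Reachable w x := hxD
    exact hx1.trans hxy.reachable
  have hwD : w ∈ D := SimpleGraph.Reachable.refl w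
  -- the component is connected
  have hconn : (B.induce D).Preconnected := by
    have h1 : ∀ x : D, (B.induce D).Reachable ⟨w, hwD⟩ x := by
      rintro ⟨x, hx⟩
      have hx' : B.Reachable w x := hx
      obtain ⟨p⟩ := hx'
      have h2 : ∀ (a b : W) (q : B.Walk a b) (ha : a ∈ D) (hb : b ∈ D),
          (B.induce D).Reachable ⟨a, ha⟩ ⟨b, hb⟩ := by
        intro a b q
        induction q with
        | nil => intro ha hb; exact SimpleGraph.Reachable.refl _
        | @cons a c b h _ ih =>
          intro ha hb
          have hc : c ∈ D := hDclosed _ ha _ h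
          have h3 : (B.induce D).Adj ⟨a, ha⟩ ⟨c, hc⟩ := h
          exact h3.reachable.trans (ih hc hb)
      exact h2 w x p hwD hx
    intro x y
    exact (h1 x).symm.trans (h1 y)
  -- `w` has a neighbour
  have hwnb : ∃ v, B.Adj w v := by
    by_contra hno
    push Not at hno
    have hlt : (S.image φ).card < Fintype.card U := by
      have h1 : S.card < Fintype.card W := by
        rw [← card_univ]
        exact card_lt_card (ssubset_univ_iff.2 hne)
      exact lt_of_le_of_lt card_image_le (lt_of_lt_of_le h1 hcard)
    obtain ⟨u, hu⟩ : ∃ u, u ∉ S.image φ := by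
      by_contra h
      push Not at h
      have := eq_univ_of_forall h
      rw [this, card_univ] at hlt
      exact lt_irrefl _ hlt
    have hgood : Good (insert w S) := by
      refine ⟨?_, fun x => if x = w then u else φ x, ?_, ?_⟩
      · intro x hx y hxy
        rw [mem_insert] at hx ⊢
        rcases hx with rfl | hx
        · exact absurd hxy (hno y)
        · exact Or.inr (hclosed x hx y hxy)
      · intro x hx y hy hxy
        simp only [coe_insert, Set.mem_insert_iff, mem_coe] at hx hy
        by_cases h1 : x = w
        · by_cases h2 : y = w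
          · rw [h1, h2]
          · exfalso
            simp only [h1, h2, if_true, if_false] at hxy
            rcases hy with hy | hy
            · exact h2 hy
            · exact hu (by rw [hxy]; exact mem_image_of_mem _ hy)
        · by_cases h2 : y = w
          · exfalso
            simp only [h1, h2, if_true, if_false] at hxy
            rcases hx with hx | hx
            · exact h1 hx
            · exact hu (by rw [← hxy]; exact mem_image_of_mem _ hx)
          · simp only [h1, h2, if_false] at hxy
            rcases hx with hx | hx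
            · exact absurd hx h1
            · rcases hy with hy | hy
              · exact absurd hy h2
              · exact hφ hx hy hxy
      · intro x hx y hy hxy
        rw [mem_insert] at hx hy
        have h1 : x ≠ w := fun h => hno y (h ▸ hxy)
        have h2 : y ≠ w := fun h => hno x (h ▸ hxy.symm)
        simp only [h1, h2, if_false]
        exact hφadj x (hx.resolve_left h1) y (hy.resolve_left h2) hxy
    have := hmax' _ hgood
    rw [card_insert_of_notMem hw] at this
    omega
  have hnb : ∀ x : D, ∃ v : D, (B.induce D).Adj x v := by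
    rintro ⟨x, hx⟩
    have hx' : B.Reachable w x := hx
    by_cases hxw : x = w
    · subst hxw
      obtain ⟨v, hv⟩ := hwnb
      exact ⟨⟨v, hDclosed _ hwD _ hv⟩, hv⟩
    · obtain ⟨p⟩ := hx'.symm
      cases p with
      | nil => exact absurd rfl hxw
      | @cons _ c _ h _ => exact ⟨⟨c, hDclosed _ hx _ h⟩, h⟩
  refine ⟨S.image φ, D, ?_, hconn, hnb, ?_⟩
  · exact card_image_le.trans (by rw [← card_univ]; exact card_le_card (subset_univ _))
  · rintro ⟨c⟩
    have hcadj : ∀ x y : D, (B.induce D).Adj x y → (cut G (S.image φ)).Adj (c x) (c y) :=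
      fun x y h => c.toHom.map_adj h
    have hcS : ∀ x : D, c x ∉ S.image φ := by
      intro x
      obtain ⟨v, hv⟩ := hnb x
      exact (hcadj x v hv).2.1
    have hgood : Good (S ∪ univ.filter (fun v => v ∈ D)) := by
      refine ⟨?_, fun x => if h : x ∈ D then c ⟨x, h⟩ else φ x, ?_, ?_⟩
      · intro x hx y hxy
        rw [mem_union, mem_filter] at hx ⊢
        rcases hx with hx | hx
        · exact Or.inl (hclosed x hx y hxy)
        · exact Or.inr ⟨mem_univ _, hDclosed x hx.2 y hxy⟩
      · intro x hx y hy hxy
        simp only [coe_union, coe_filter, mem_univ, true_and, Set.mem_union, mem_coe,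
          Set.mem_ofPred_eq] at hx hy
        by_cases h1 : x ∈ D
        · by_cases h2 : y ∈ D
          · simp only [h1, h2, dif_pos] at hxy
            have h3 := c.injective hxy
            exact congrArg Subtype.val h3
          · exfalso
            simp only [h1, h2, dif_pos, dif_neg, not_false_eq_true] at hxy
            exact hcS ⟨x, h1⟩ (by rw [hxy]; exact mem_image_of_mem _ (hy.resolve_right h2))
        · by_cases h2 : y ∈ D
          · exfalso
            simp only [h1, h2, dif_pos, dif_neg, not_false_eq_true] at hxy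
            exact hcS ⟨y, h2⟩ (by rw [← hxy]; exact mem_image_of_mem _ (hx.resolve_right h1))
          · simp only [h1, h2, dif_neg, not_false_eq_true] at hxy
            exact hφ (hx.resolve_right h1) (hy.resolve_right h2) hxy
      · intro x hx y hy hxy
        simp only [mem_union, mem_filter, mem_univ, true_and] at hx hy
        by_cases h1 : x ∈ D
        · have h2 : y ∈ D := hDclosed x h1 y hxy
          simp only [h1, h2, dif_pos]
          exact (hcadj ⟨x, h1⟩ ⟨y, h2⟩ hxy).1
        · have h2 : y ∉ D := fun h => h1 (hDclosed y h x hxy.symm)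
          simp only [h1, h2, dif_neg, not_false_eq_true]
          exact hφadj x (hx.resolve_right h1) y (hy.resolve_right h2) hxy
    have h1 := hmax' _ hgood
    have h2 : insert w S ⊆ S ∪ univ.filter (fun v => v ∈ D) := by
      intro x hx
      rw [mem_insert] at hx
      rw [mem_union, mem_filter]
      rcases hx with rfl | hx
      · exact Or.inr ⟨mem_univ _, hwD⟩
      · exact Or.inl hx
    have h3 := card_le_card h2
    rw [card_insert_of_notMem hw] at h3
    omega

theorem rep_le_extremal {W : Type} [Fintype W] (B : SimpleGraph W) (m r s : ℕ)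
    (hcard : Fintype.card W ≤ m) (G : SimpleGraph (Fin m)) (hfree : B.Free G) :
    r * (G.edgeFinset.card - Fintype.card W * m) ≤ extremalNumber (r * m + s) B := by
  obtain ⟨S, D, hS, hconn, hnb, hD⟩ := exists_piece B G hfree (by simpa using hcard)
  have h1 : B.Free (rep r s (cut G S)) := by
    intro hcon
    apply hD
    apply contained_of_rep r s (cut G S) _ hconn hnb
    have h0 : (B.induce D).IsContained B :=
      ⟨⟨(SimpleGraph.Embedding.induce (G := B) D).toHom,
        (SimpleGraph.Embedding.induce (G := B) D).injective⟩⟩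
    exact h0.trans hcon
  have h2 := SimpleGraph.card_edgeFinset_le_extremalNumber h1
  have h3 : Fintype.card ((Fin r × Fin m) ⊕ Fin s) = r * m + s := by simp
  rw [h3] at h2
  refine le_trans ?_ h2
  refine le_trans ?_ (rep_card r s (cut G S))
  apply Nat.mul_le_mul_left
  have h4 := cut_card G S
  rw [Fintype.card_fin] at h4
  have h5 : S.card * m ≤ Fintype.card W * m := Nat.mul_le_mul_right _ hS
  omega

end Pool.Agent.H47.SuperAdd
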