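import Mathlib
import Pool.Agent.H47.SuperAdd

/-!
The growth of Turán numbers: `ex(m, B) n ≤ C m ex(n, B)` for `1 ≤ m ≤ n`.
-/

set_option autoImplicit false

namespace Pool.Agent.H47.Growth

open Finset SimpleGraph Pool.Agent.H47.SuperAdd

open scoped Classical

/-- the matching on `{0, …, n-1}` with edges `{2k, 2k+1}` -/
def matchGraph (n : ℕ) : SimpleGraph (Fin n) where
  Adj a b := a ≠ b ∧ a.val / 2 = b.val / 2
  symm := ⟨fun _ _ h => ⟨h.1.symm, h.2.symm⟩⟩
  loopless := ⟨fun _ h => h.1 rfl⟩

/-- the star on `{0, …, n-1}` with centre `0` -/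
def starG (n : ℕ) : SimpleGraph (Fin n) where
  Adj a b := a ≠ b ∧ (a.val = 0 ∨ b.val = 0)
  symm := ⟨fun _ _ h => ⟨h.1.symm, h.2.symm⟩⟩
  loopless := ⟨fun _ h => h.1 rfl⟩

theorem matchGraph_card (n : ℕ) : n / 2 ≤ (matchGraph n).edgeFinset.card := by
  have h1 : (univ : Finset (Fin (n / 2))).card ≤ (matchGraph n).edgeFinset.card := by
    apply card_le_card_of_injOn
      (fun k => (s(⟨2 * k.val, by have := k.isLt; omega⟩, ⟨2 * k.val + 1, by
        have := k.isLt; omega⟩) : Sym2 (Fin n)))
    · intro k _
      rw [mem_coe, SimpleGraph.mem_edgeFinset, SimpleGraph.mem_edgeSet]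
      refine ⟨?_, ?_⟩
      · intro h
        have := congrArg Fin.val h
        simp at this
      · simp only
        omega
    · intro k _ k' _ h
      simp only [Sym2.eq_iff, Fin.mk.injEq] at h
      apply Fin.ext
      omega
  rwa [card_univ, Fintype.card_fin] at h1

theorem starG_card (n : ℕ) : n / 2 ≤ (starG n).edgeFinset.card := by
  rcases Nat.lt_or_ge n 2 with hn | hn
  · have : n / 2 = 0 := by omega
    omega
  · have h1 : (univ : Finset (Fin (n - 1))).card ≤ (starG n).edgeFinset.card := by
      apply card_le_card_of_injOn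
        (fun k => (s(⟨0, by omega⟩, ⟨k.val + 1, by have := k.isLt; omega⟩) : Sym2 (Fin n)))
      · intro k _
        rw [mem_coe, SimpleGraph.mem_edgeFinset, SimpleGraph.mem_edgeSet]
        refine ⟨?_, Or.inl rfl⟩
        intro h
        have := congrArg Fin.val h
        simp at this
      · intro k _ k' _ h
        simp only [Sym2.eq_iff, Fin.mk.injEq] at h
        apply Fin.ext
        omega
    rw [card_univ, Fintype.card_fin] at h1
    omega

theorem half_le {W : Type} [Fintype W] (B : SimpleGraph W) (h2 : 2 ≤ B.edgeFinset.card) (n : ℕ) :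
    n / 2 ≤ extremalNumber n B := by
  by_cases hch : ∃ x y z, y ≠ z ∧ B.Adj x y ∧ B.Adj x z
  · obtain ⟨x, y, z, hyz, hxy, hxz⟩ := hch
    have hfree : B.Free (matchGraph n) := by
      rintro ⟨c⟩
      have h1 : (matchGraph n).Adj (c x) (c y) := c.toHom.map_adj hxy
      have h3 : (matchGraph n).Adj (c x) (c z) := c.toHom.map_adj hxz
      have e1 : (c x).val ≠ (c y).val := fun h => h1.1 (Fin.ext h)
      have e2 : (c x).val ≠ (c z).val := fun h => h3.1 (Fin.ext h)
      have e3 : (c x).val / 2 = (c y).val / 2 := h1.2
      have e4 : (c x).val / 2 = (c z).val / 2 := h3.2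
      have e5 : (c y).val = (c z).val := by omega
      exact hyz (c.injective (Fin.ext e5))
    have h3 := SimpleGraph.card_edgeFinset_le_extremalNumber hfree
    rw [Fintype.card_fin] at h3
    exact (matchGraph_card n).trans h3
  · push Not at hch
    obtain ⟨f, hf, g, hg, hfg⟩ := one_lt_card.1 (by omega : 1 < B.edgeFinset.card)
    have hfree : B.Free (starG n) := by
      rintro ⟨c⟩
      rw [SimpleGraph.mem_edgeFinset] at hf hg
      induction f with | _ x y =>
      induction g with | _ z t =>
      have hxy : B.Adj x y := hf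
      have hzt : B.Adj z t := hg
      have h1 : (starG n).Adj (c x) (c y) := c.toHom.map_adj hxy
      have h3 : (starG n).Adj (c z) (c t) := c.toHom.map_adj hzt
      have key : ∀ a b a' b' : W, B.Adj a b → B.Adj a' b' → (c a).val = 0 → (c a').val = 0 →
          s(a, b) = s(a', b') := by
        intro a b a' b' h4 h5 h6 h7
        have h8 : a = a' := c.injective (Fin.ext (h6.trans h7.symm))
        subst h8
        by_contra hne
        have hbb : b ≠ b' := fun h => hne (by rw [h])
        exact hch a b b' hbb h4 h5
      apply hfg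
      rcases h1.2 with h4 | h4 <;> rcases h3.2 with h5 | h5
      · exact key x y z t hxy hzt h4 h5
      · rw [Sym2.eq_swap (a := z)]
        exact key x y t z hxy hzt.symm h4 h5
      · rw [Sym2.eq_swap (a := x)]
        exact key y x z t hxy.symm hzt h4 h5
      · rw [Sym2.eq_swap (a := x), Sym2.eq_swap (a := z)]
        exact key y x t z hxy.symm hzt.symm h4 h5
    have h3 := SimpleGraph.card_edgeFinset_le_extremalNumber hfree
    rw [Fintype.card_fin] at h3
    exact (starG_card n).trans h3

theorem extremal_le_sq {W : Type} (B : SimpleGraph W) (m : ℕ) : extremalNumber m B ≤ m.choose 2 := by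
  have h1 := (SimpleGraph.extremalNumber_le_iff (V := Fin m) B (m.choose 2)).2 ?_
  · simpa using h1
  · intro G _ _
    have := G.card_edgeFinset_le_card_choose_two
    rw [Fintype.card_fin] at this
    exact this

theorem exists_extremal {W : Type} (B : SimpleGraph W) (hB : B ≠ ⊥) (m : ℕ) :
    ∃ G : SimpleGraph (Fin m), B.Free G ∧ G.edgeFinset.card = extremalNumber m B := by
  unfold extremalNumber
  have hne : ((univ : Finset (SimpleGraph (Fin m))).filter (fun G => B.Free G)).Nonempty := by
    refine ⟨⊥, ?_⟩
    rw [mem_filter]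
    exact ⟨mem_univ _, SimpleGraph.free_bot hB⟩
  obtain ⟨G, hG, hs⟩ := exists_mem_eq_sup _ hne (fun G : SimpleGraph (Fin m) => G.edgeFinset.card)
  rw [mem_filter] at hG
  exact ⟨G, hG.2, hs.symm⟩

theorem growth {W : Type} [Fintype W] (B : SimpleGraph W) (h2 : 2 ≤ B.edgeFinset.card) (m n : ℕ)
    (hm : 1 ≤ m) (hmn : m ≤ n) :
    extremalNumber m B * n ≤ (2 + 3 * Fintype.card W) * (m * extremalNumber n B) := by
  set w := Fintype.card W with hw
  rcases Nat.lt_or_ge n 2 with hn | hn
  · have hm1 : m = 1 := by omega
    have h3 := extremal_le_sq B m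
    rw [hm1] at h3 ⊢
    simp only [Nat.choose_succ_self, nonpos_iff_eq_zero] at h3
    rw [h3]
    simp
  · have hB : B ≠ ⊥ := by
      obtain ⟨f, hf⟩ := card_pos.1 (by omega : 0 < B.edgeFinset.card)
      rw [SimpleGraph.mem_edgeFinset] at hf
      intro h0
      induction f with | _ x y =>
      have hxy : B.Adj x y := hf
      rw [h0] at hxy
      exact hxy
    have h3 : n ≤ 3 * extremalNumber n B := by
      have := half_le B h2 n
      omega
    have h4 : w * m * n ≤ 3 * w * (m * extremalNumber n B) := by
      calc w * m * n ≤ w * m * (3 * extremalNumber n B) := Nat.mul_le_mul_left _ h3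
        _ = _ := by ring
    rcases Nat.lt_or_ge m w with hmw | hmw
    · have h5 : extremalNumber m B ≤ w * m := by
        have h6 := extremal_le_sq B m
        have h7 : m.choose 2 ≤ m * m := by
          rw [Nat.choose_two_right]
          exact (Nat.div_le_self _ _).trans (Nat.mul_le_mul_left _ (Nat.sub_le _ _))
        exact h6.trans (h7.trans (Nat.mul_le_mul_right _ hmw.le))
      calc extremalNumber m B * n ≤ w * m * n := Nat.mul_le_mul_right _ h5
        _ ≤ 3 * w * (m * extremalNumber n B) := h4
        _ ≤ _ := Nat.mul_le_mul_right _ (by omega)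
    · obtain ⟨G, hG, hGc⟩ := exists_extremal B hB m
      have h5 := rep_le_extremal B m (n / m) (n % m) hmw G hG
      rw [hGc] at h5
      have h6 : n / m * m + n % m = n := Nat.div_add_mod' n m
      rw [h6] at h5
      have h7 : n ≤ 2 * (n / m * m) := by
        have h8 : n % m < m := Nat.mod_lt _ (by omega)
        have h9 : m ≤ n / m * m := by
          have : 1 ≤ n / m := (Nat.one_le_div_iff (by omega)).2 hmn
          calc m = 1 * m := by ring
            _ ≤ n / m * m := Nat.mul_le_mul_right _ this
        omega
      have h8 : extremalNumber m B ≤ (extremalNumber m B - w * m) + w * m := by omega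
      calc extremalNumber m B * n ≤ ((extremalNumber m B - w * m) + w * m) * n :=
            Nat.mul_le_mul_right _ h8
        _ = (extremalNumber m B - w * m) * n + w * m * n := by ring
        _ ≤ (extremalNumber m B - w * m) * (2 * (n / m * m)) + w * m * n :=
            Nat.add_le_add_right (Nat.mul_le_mul_left _ h7) _
        _ = 2 * m * (n / m * (extremalNumber m B - w * m)) + w * m * n := by ring
        _ ≤ 2 * m * extremalNumber n B + 3 * w * (m * extremalNumber n B) :=
            Nat.add_le_add (Nat.mul_le_mul_left _ h5) h4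
        _ = _ := by ring

end Pool.Agent.H47.Growth
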