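import Mathlib
import Pool.Agent.H47.TimeBound
import Pool.Agent.H47.ProcessBound

/-!
The bound for the number of rounds with constants depending linearly on the Turán bound, and a
version for the exponent one with two logarithms.
-/

set_option autoImplicit false

namespace Pool.Agent.H47.TimeBound2

open Finset Pool.Agent.H47.Sampling Pool.Agent.H47.SeqLemma Pool.Agent.H47.TimeBound

theorem fiber_sum (T : ℕ) (b : ℕ → ℕ) (L : ℕ) (hL : ∀ i ∈ Icc 1 T, Nat.log 4 (b i) < L) :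
    ∑ j ∈ (Icc 1 T).filter (Bal b), (2 * Nat.log 4 (b j) + 1) =
      ∑ l ∈ range L, (2 * l + 1) *
        ((Icc 1 T).filter (fun i => Bal b i ∧ Nat.log 4 (b i) = l)).card := by
  rw [← sum_fiberwise_of_maps_to (t := range L) (g := fun j => Nat.log 4 (b j))]
  · apply sum_congr rfl
    intro l _
    have h3 : ∀ i ∈ ((Icc 1 T).filter (Bal b)).filter
        (fun i => Nat.log 4 (b i) = l), 2 * Nat.log 4 (b i) + 1 = 2 * l + 1 := by
      intro i hi
      rw [(mem_filter.1 hi).2]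
    rw [sum_congr rfl h3, sum_const, smul_eq_mul, mul_comm, filter_filter]
  · intro i hi
    rw [mem_range]
    exact hL i (mem_filter.1 hi).1

/-- The time bound with a constant that depends only on the exponent. -/
theorem time_bound_linear (α : ℝ) (h1 : 1 < α) (h2 : α ≤ 2) :
    ∃ C : ℝ, 0 ≤ C ∧ ∀ (A : ℝ) (_ : 0 ≤ A) (V : Type) [Fintype V] [DecidableEq V] (T : ℕ)
    (F Wd : ℕ → Finset (Sym2 V)) (_ : 0 < Fintype.card V)
    (_ : ∀ i, F i ⊆ Wd i) (_ : ∀ i, ∀ g ∈ Wd i, ¬ g.IsDiag)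
    (_ : ∀ i j, i ≠ j → Disjoint (F i) (F j))
    (_ : ∀ P : Finset V, ((sel F Wd T P).card : ℝ) ≤ A * (P.card : ℝ) ^ α)
    (_ : ∀ i ∈ Icc 1 T, 1 ≤ (F i).card) (_ : (F 0).card = 0) (_ : (F (T + 1)).card = 0)
    (_ : ∀ i ∈ Icc 1 T, (Wd i).card ≤ (F (i - 1)).card + (F i).card + (F (i + 1)).card),
    (T : ℝ) ≤ C * (A * (Fintype.card V : ℝ) ^ α) := by
  set r : ℝ := (4 : ℝ) ^ (1 - α) with hr
  have hr0 : 0 < r := Real.rpow_pos_of_pos (by norm_num) _
  have hr1 : r < 1 := by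
    rw [hr]
    exact Real.rpow_lt_one_of_one_lt_of_neg (by norm_num) (by linarith)
  have hs : Summable (fun j : ℕ => (2 * (j : ℝ) + 1) * r ^ j) := by
    have hs1 : Summable (fun j : ℕ => (j : ℝ) ^ 1 * r ^ j) := by
      apply summable_pow_mul_geometric_of_norm_lt_one
      rw [Real.norm_eq_abs, abs_of_pos hr0]
      exact hr1
    have hs2 : Summable (fun j : ℕ => r ^ j) := summable_geometric_of_lt_one hr0.le hr1
    have hs3 := (hs1.mul_left 2).add hs2
    refine hs3.congr ?_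
    intro j
    ring
  set S := ∑' j : ℕ, (2 * (j : ℝ) + 1) * r ^ j with hS
  have hS0 : 0 ≤ S := tsum_nonneg (fun j => by positivity)
  refine ⟨6 * (4 : ℝ) ^ (8 - 4 * α) * S, by positivity, ?_⟩
  intro A hA V _ _ T F Wd hV hFW hW hdisj hbound hF hF0 hFT hwin
  have hseq := le_sum T (fun i => (F i).card) hF hF0 hFT
  set L := (∑ j ∈ Icc 1 T, (Nat.log 4 (F j).card)) + 1 with hL
  rw [fiber_sum T (fun i => (F i).card) L ?_] at hseq
  · have hseq' : (T : ℝ) ≤ ∑ l ∈ range L, (2 * (l : ℝ) + 1) *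
        (((Icc 1 T).filter (fun i => Bal (fun i => (F i).card) i ∧
          Nat.log 4 (F i).card = l)).card : ℝ) := by
      exact_mod_cast hseq
    have h4 : ∑ l ∈ range L, (2 * (l : ℝ) + 1) *
        (((Icc 1 T).filter (fun i => Bal (fun i => (F i).card) i ∧
          Nat.log 4 (F i).card = l)).card : ℝ) ≤
        ∑ l ∈ range L, (6 * A * (4 : ℝ) ^ (8 - 4 * α) * (Fintype.card V : ℝ) ^ α) *
          ((2 * (l : ℝ) + 1) * r ^ l) := by
      apply sum_le_sum
      intro l _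
      have h5 := level_bound T F Wd hV hFW hW hdisj A α hA h1 h2 hbound hF hwin l
      have h6 : (0 : ℝ) ≤ 2 * (l : ℝ) + 1 := by positivity
      calc _ ≤ (2 * (l : ℝ) + 1) * ((6 * A * (4 : ℝ) ^ (8 - 4 * α) * (Fintype.card V : ℝ) ^ α) *
            ((4 : ℝ) ^ (1 - α)) ^ l) := mul_le_mul_of_nonneg_left h5 h6
        _ = _ := by ring
    have h7 : ∑ l ∈ range L, (2 * (l : ℝ) + 1) * r ^ l ≤ S :=
      hs.sum_le_tsum _ (fun j _ => by positivity)
    rw [← mul_sum] at h4
    have h8 : (0 : ℝ) ≤ 6 * A * (4 : ℝ) ^ (8 - 4 * α) * (Fintype.card V : ℝ) ^ α := by positivity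
    calc (T : ℝ) ≤ _ := hseq'
      _ ≤ _ := h4
      _ ≤ (6 * A * (4 : ℝ) ^ (8 - 4 * α) * (Fintype.card V : ℝ) ^ α) * S :=
          mul_le_mul_of_nonneg_left h7 h8
      _ = _ := by ring
  · intro i hi
    rw [hL]
    have := single_le_sum (f := fun j => Nat.log 4 (F j).card) (fun _ _ => Nat.zero_le _) hi
    have h' : Nat.log 4 (F i).card ≤ ∑ j ∈ Icc 1 T, (Nat.log 4 (F j).card) := this
    show Nat.log 4 (F i).card < _
    omega

/-- Counting for the linear Turán bound. -/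
theorem sampling_one {V : Type} [Fintype V] [DecidableEq V] (k T : ℕ)
    (F Wd : ℕ → Finset (Sym2 V))
    (hFW : ∀ i, F i ⊆ Wd i) (hW : ∀ i, ∀ g ∈ Wd i, ¬ g.IsDiag)
    (hdisj : ∀ i j, i ≠ j → Disjoint (F i) (F j)) (A : ℝ) (_hA : 0 ≤ A)
    (hbound : ∀ P : Finset V, ((sel F Wd T P).card : ℝ) ≤ A * (P.card : ℝ))
    (J : Finset ℕ) (hJ : J ⊆ Icc 1 T) (q : ℝ) (hq : ∀ i ∈ J, q ≤ (F i).card)
    (hw : ∀ i ∈ J, ((Wd i).card : ℝ) ≤ ((k : ℝ) + 1) / 2) :
    (J.card : ℝ) * q * (1 / (2 * ((k : ℝ) + 1) ^ 2)) ≤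
      A * ((Fintype.card V : ℝ) / ((k : ℝ) + 1)) := by
  classical
  set n : ℝ := (Fintype.card V : ℝ) with hn
  set K : ℝ := (k : ℝ) + 1 with hKdef
  have hK : 0 < K := by positivity
  -- upper bound
  have hup : ∑ χ : V → Fin (k + 1), ((sel F Wd T (cls χ)).card : ℝ) ≤
      A * (n / K) * K ^ (Fintype.card V) := by
    refine (sum_le_sum (fun χ _ => hbound (cls χ))).trans ?_
    rw [← mul_sum, sum_card_cls]
    apply le_of_eq
    rw [← hn, ← hKdef]
    ring
  -- lower bound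
  have hlow : (J.card : ℝ) * q * (1 / (2 * K ^ 2)) * K ^ (Fintype.card V) ≤
      ∑ χ : V → Fin (k + 1), ((sel F Wd T (cls χ)).card : ℝ) := by
    have h3 : ∀ χ : V → Fin (k + 1),
        ∑ i ∈ J, (((F i).filter (fun f => iso (F i) (Wd i) (cls χ) f)).card : ℝ) ≤
        ((sel F Wd T (cls χ)).card : ℝ) := by
      intro χ
      have h4 : (J.biUnion (fun i => (F i).filter (fun f => iso (F i) (Wd i) (cls χ) f))).card =
          ∑ i ∈ J, ((F i).filter (fun f => iso (F i) (Wd i) (cls χ) f)).card := by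
        apply card_biUnion
        intro i _ j _ hij
        exact (hdisj i j hij).mono (filter_subset _ _) (filter_subset _ _)
      have h5 : J.biUnion (fun i => (F i).filter (fun f => iso (F i) (Wd i) (cls χ) f)) ⊆
          sel F Wd T (cls χ) := biUnion_subset_biUnion_of_subset_left _ hJ
      have h6 := card_le_card h5
      rw [h4] at h6
      exact_mod_cast h6
    refine le_trans ?_ (sum_le_sum (fun χ _ => h3 χ))
    rw [sum_comm]
    have h4 : ∀ i ∈ J, q * (1 / (2 * K ^ 2)) * K ^ (Fintype.card V) ≤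
        ∑ χ : V → Fin (k + 1), (((F i).filter (fun f => iso (F i) (Wd i) (cls χ) f)).card : ℝ) := by
      intro i hi
      have h5 : ∑ χ : V → Fin (k + 1), (((F i).filter (fun f => iso (F i) (Wd i) (cls χ) f)).card : ℝ)
          = ∑ f ∈ F i, ((univ.filter (fun χ : V → Fin (k + 1) =>
            iso (F i) (Wd i) (cls χ) f)).card : ℝ) := by
        have h6 : ∀ χ : V → Fin (k + 1),
            (((F i).filter (fun f => iso (F i) (Wd i) (cls χ) f)).card : ℝ) =
            ∑ f ∈ F i, if iso (F i) (Wd i) (cls χ) f then (1 : ℝ) else 0 := by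
          intro χ
          rw [sum_boole]
        simp only [h6]
        rw [sum_comm]
        apply sum_congr rfl
        intro f _
        rw [sum_boole]
      rw [h5]
      have h7 : ∀ f ∈ F i, (1 / (2 * K ^ 2)) * K ^ (Fintype.card V) ≤
          ((univ.filter (fun χ : V → Fin (k + 1) => iso (F i) (Wd i) (cls χ) f)).card : ℝ) := by
        intro f hf
        refine le_trans ?_ (iso_count k (F i) (Wd i) (hW i) (hFW i) f hf)
        have h8 := hw i hi
        have h9 : ((Wd i).card : ℝ) / K ^ 3 ≤ (K / 2) / K ^ 3 :=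
          div_le_div_of_nonneg_right h8 (by positivity)
        have h10 : (K / 2) / K ^ 3 = 1 / (2 * K ^ 2) := by
          field_simp
        have h11 : 1 / K ^ 2 - ((Wd i).card : ℝ) / K ^ 3 ≥ 1 / (2 * K ^ 2) := by
          have : 1 / K ^ 2 = 2 * (1 / (2 * K ^ 2)) := by field_simp
          rw [this]
          linarith
        have h12 : (0 : ℝ) ≤ K ^ (Fintype.card V) := by positivity
        rw [mul_comm]
        exact mul_le_mul_of_nonneg_left h11 h12
      calc q * (1 / (2 * K ^ 2)) * K ^ (Fintype.card V)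
          ≤ ((F i).card : ℝ) * (1 / (2 * K ^ 2)) * K ^ (Fintype.card V) := by
            have := hq i hi
            have h12 : (0 : ℝ) ≤ (1 / (2 * K ^ 2)) * K ^ (Fintype.card V) := by positivity
            nlinarith [mul_le_mul_of_nonneg_right this h12]
        _ = ∑ _f ∈ F i, (1 / (2 * K ^ 2)) * K ^ (Fintype.card V) := by
            rw [sum_const, nsmul_eq_mul]; ring
        _ ≤ _ := sum_le_sum h7
    calc (J.card : ℝ) * q * (1 / (2 * K ^ 2)) * K ^ (Fintype.card V)
        = ∑ _i ∈ J, q * (1 / (2 * K ^ 2)) * K ^ (Fintype.card V) := by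
          rw [sum_const, nsmul_eq_mul]; ring
      _ ≤ _ := sum_le_sum h4
  have hfin := hlow.trans hup
  have hKn : (0 : ℝ) < K ^ (Fintype.card V) := by positivity
  exact le_of_mul_le_mul_right hfin hKn

theorem level_bound_one {V : Type} [Fintype V] [DecidableEq V] (T : ℕ)
    (F Wd : ℕ → Finset (Sym2 V))
    (hFW : ∀ i, F i ⊆ Wd i) (hW : ∀ i, ∀ g ∈ Wd i, ¬ g.IsDiag)
    (hdisj : ∀ i j, i ≠ j → Disjoint (F i) (F j)) (A : ℝ) (hA : 0 ≤ A)
    (hbound : ∀ P : Finset V, ((sel F Wd T P).card : ℝ) ≤ A * (P.card : ℝ))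
    (hF : ∀ i ∈ Icc 1 T, 1 ≤ (F i).card)
    (hwin : ∀ i ∈ Icc 1 T, (Wd i).card ≤ (F (i - 1)).card + (F i).card + (F (i + 1)).card)
    (j : ℕ) :
    (((Icc 1 T).filter (fun i => Bal (fun i => (F i).card) i ∧ Nat.log 4 (F i).card = j)).card : ℝ) ≤
      512 * (A * (Fintype.card V : ℝ)) := by
  set J := (Icc 1 T).filter (fun i => Bal (fun i => (F i).card) i ∧ Nat.log 4 (F i).card = j) with hJ
  set n : ℝ := (Fintype.card V : ℝ) with hn
  have hpos : 0 < 4 ^ (j + 4) := Nat.pow_pos (by norm_num)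
  obtain ⟨k, hk⟩ : ∃ k : ℕ, k + 1 = 4 ^ (j + 4) := ⟨4 ^ (j + 4) - 1, by omega⟩
  have hk' : (k : ℝ) + 1 = (4 : ℝ) ^ (j + 4) := by exact_mod_cast hk
  have key := sampling_one k T F Wd hFW hW hdisj A hA hbound J (filter_subset _ _)
    ((4 : ℝ) ^ j) ?_ ?_
  · rw [hk'] at key
    have hx : (0 : ℝ) < (4 : ℝ) ^ j := by positivity
    have h6 : (4 : ℝ) ^ (j + 4) = 256 * 4 ^ j := by
      rw [pow_add]; ring
    rw [h6] at key
    have h7 : (J.card : ℝ) * 4 ^ j * (1 / (2 * (256 * 4 ^ j) ^ 2)) =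
        (J.card : ℝ) / (512 * (256 * 4 ^ j)) := by
      field_simp
      ring
    rw [h7, ← mul_div_assoc, div_le_div_iff₀ (by positivity) (by positivity)] at key
    have h8 : (J.card : ℝ) * (256 * 4 ^ j) ≤ (512 * (A * n)) * (256 * 4 ^ j) := by
      calc _ ≤ _ := key
        _ = _ := by ring
    exact le_of_mul_le_mul_right h8 (by positivity)
  · intro i hi
    rw [hJ, mem_filter] at hi
    have h3 : (F i).card ≠ 0 := by
      have := hF i hi.1; omega
    have h4 := Nat.pow_log_le_self 4 h3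
    rw [hi.2.2] at h4
    exact_mod_cast h4
  · intro i hi
    rw [hJ, mem_filter] at hi
    obtain ⟨hi1, ⟨hb1, hb2⟩, hlog⟩ := hi
    have hb1' : (F (i - 1)).card ≤ 4 * (F i).card := hb1
    have hb2' : (F (i + 1)).card ≤ 4 * (F i).card := hb2
    have h3 := hwin i hi1
    have h4 : (F i).card < 4 ^ (j + 1) := by
      rw [← hlog]
      exact Nat.lt_pow_succ_log_self (by norm_num) _
    have h5 : 2 * (Wd i).card ≤ 4 ^ (j + 4) := by
      have h6 : 4 ^ (j + 4) = 64 * 4 ^ (j + 1) := by ring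
      rw [h6]
      omega
    rw [hk']
    have h7 : (2 : ℝ) * (Wd i).card ≤ (4 : ℝ) ^ (j + 4) := by exact_mod_cast h5
    linarith

/-- The time bound for the exponent one: two logarithms are lost. -/
theorem time_bound_one {V : Type} [Fintype V] [DecidableEq V] (T : ℕ)
    (F Wd : ℕ → Finset (Sym2 V))
    (hFW : ∀ i, F i ⊆ Wd i) (hW : ∀ i, ∀ g ∈ Wd i, ¬ g.IsDiag)
    (hdisj : ∀ i j, i ≠ j → Disjoint (F i) (F j)) (A : ℝ) (hA : 0 ≤ A)
    (hbound : ∀ P : Finset V, ((sel F Wd T P).card : ℝ) ≤ A * (P.card : ℝ))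
    (hF : ∀ i ∈ Icc 1 T, 1 ≤ (F i).card) (hF0 : (F 0).card = 0) (hFT : (F (T + 1)).card = 0)
    (hwin : ∀ i ∈ Icc 1 T, (Wd i).card ≤ (F (i - 1)).card + (F i).card + (F (i + 1)).card)
    (L : ℕ) (hL : ∀ i ∈ Icc 1 T, (F i).card < 4 ^ L) :
    (T : ℝ) ≤ (L : ℝ) ^ 2 * (512 * (A * (Fintype.card V : ℝ))) := by
  have hseq := le_sum T (fun i => (F i).card) hF hF0 hFT
  rw [fiber_sum T (fun i => (F i).card) L ?_] at hseq
  · have hseq' : (T : ℝ) ≤ ∑ l ∈ range L, (2 * (l : ℝ) + 1) *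
        (((Icc 1 T).filter (fun i => Bal (fun i => (F i).card) i ∧
          Nat.log 4 (F i).card = l)).card : ℝ) := by
      exact_mod_cast hseq
    refine hseq'.trans ?_
    have h4 : ∑ l ∈ range L, (2 * (l : ℝ) + 1) *
        (((Icc 1 T).filter (fun i => Bal (fun i => (F i).card) i ∧
          Nat.log 4 (F i).card = l)).card : ℝ) ≤
        ∑ l ∈ range L, (2 * (l : ℝ) + 1) * (512 * (A * (Fintype.card V : ℝ))) := by
      apply sum_le_sum
      intro l _
      exact mul_le_mul_of_nonneg_left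
        (level_bound_one T F Wd hFW hW hdisj A hA hbound hF hwin l) (by positivity)
    refine h4.trans (le_of_eq ?_)
    rw [← sum_mul]
    congr 1
    have h5 : ∀ m : ℕ, ∑ l ∈ range m, (2 * (l : ℝ) + 1) = (m : ℝ) ^ 2 := by
      intro m
      induction m with
      | zero => simp
      | succ m ih => rw [sum_range_succ, ih]; push_cast; ring
    exact h5 L
  · intro i hi
    have h1 := hL i hi
    show Nat.log 4 (F i).card < L
    have h0 : (F i).card ≠ 0 := by
      have := hF i hi; omega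
    exact (Nat.log_lt_iff_lt_pow (by norm_num) h0).2 h1

end Pool.Agent.H47.TimeBound2
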