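import Mathlib
import Pool.Agent.H47.TimeBound2
import Pool.Agent.H47.Growth

/-!
General upper bounds for the maximum running time in terms of Turán numbers of `H` minus an edge.
-/

set_option autoImplicit false

namespace Pool.Agent.H47.GeneralBounds

open Finset SimpleGraph Pool.Agent.H47.BootstrapTime Pool.Agent.H47.Sampling
  Pool.Agent.H47.ProcessBound Pool.Agent.H47.TimeBound2 Pool.Agent.H47.Growth

open scoped Classical

variable {W : Type}

theorem maxTime_le_of (H : SimpleGraph W) (n : ℕ) (X : ℝ) (hX : 0 ≤ X)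
    (h : ∀ G : SimpleGraph (Fin n), 1 ≤ runningTime H G → (runningTime H G : ℝ) ≤ X) :
    (maxTime H n : ℝ) ≤ X := by
  unfold maxTime
  rcases (univ : Finset (SimpleGraph (Fin n))).eq_empty_or_nonempty with h0 | hne
  · rw [h0]
    simp only [sup_empty, Nat.bot_eq_zero, Nat.cast_zero]
    exact hX
  · obtain ⟨G, -, hG⟩ := exists_mem_eq_sup _ hne (fun G : SimpleGraph (Fin n) => runningTime H G)
    rw [hG]
    rcases Nat.eq_zero_or_pos (runningTime H G) with h0 | hpos
    · rw [h0]
      simpa using hX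
    · exact h G hpos

theorem pos_of_runningTime (H : SimpleGraph W) (n : ℕ) (G : SimpleGraph (Fin n))
    (h : 1 ≤ runningTime H G) : 0 < n := by
  rcases Nat.eq_zero_or_pos n with hn | hn
  · exfalso
    subst hn
    have := Fr_pos H G 1 (mem_Icc.2 ⟨le_refl _, h⟩)
    have h5 : (Fr H G 1) = ∅ := by
      rw [eq_empty_iff_forall_notMem]
      intro f _
      induction f with | _ x y => exact Fin.elim0 x
    rw [h5] at this
    simp at this
  · exact hn

theorem two_le_delete [Fintype W] (H : SimpleGraph W) (e : Sym2 W) (he : e ∈ H.edgeSet)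
    (h3 : 3 ≤ H.edgeFinset.card) (i : Fintype (H.deleteEdges {e}).edgeSet) :
    2 ≤ (@SimpleGraph.edgeFinset W (H.deleteEdges {e}) i).card := by
  have h4 : @SimpleGraph.edgeFinset W (H.deleteEdges {e}) i = H.edgeFinset.erase e := by
    ext f
    rw [SimpleGraph.mem_edgeFinset, SimpleGraph.edgeSet_deleteEdges, mem_erase,
      SimpleGraph.mem_edgeFinset]
    simp only [Set.mem_sdiff, Set.mem_singleton_iff]
    tauto
  rw [h4, card_erase_of_mem (by rwa [SimpleGraph.mem_edgeFinset])]
  omega

theorem ex_zero (B : SimpleGraph W) : extremalNumber 0 B = 0 := by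
  have := extremal_le_sq B 0
  simpa using this

theorem growth_real [Fintype W] (B : SimpleGraph W) (h2 : 2 ≤ B.edgeFinset.card) (m n : ℕ)
    (hn : 0 < n) (hmn : m ≤ n) :
    (extremalNumber m B : ℝ) ≤
      ((2 + 3 * (Fintype.card W : ℝ)) * (extremalNumber n B : ℝ) / n) * m := by
  have hn0 : (0 : ℝ) < n := by exact_mod_cast hn
  rcases Nat.eq_zero_or_pos m with h0 | hm
  · rw [h0, ex_zero]; simp
  · have h6 := growth B h2 m n hm hmn
    have h7 : (extremalNumber m B : ℝ) * n ≤
        (2 + 3 * (Fintype.card W : ℝ)) * (m * (extremalNumber n B : ℝ)) := by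
      exact_mod_cast h6
    rw [div_mul_eq_mul_div, le_div_iff₀ hn0]
    calc _ ≤ _ := h7
      _ = _ := by ring

theorem card_Fr_lt {n : ℕ} (H : SimpleGraph W) (G : SimpleGraph (Fin n)) (i : ℕ) :
    (Fr H G i).card < 4 ^ (Nat.log 2 n + 1) := by
  have h5 : (Fr H G i).card ≤ n.choose 2 := by
    have h6 : (Fr H G i).card ≤ (E H G i).card := by
      unfold Fr
      exact card_le_card sdiff_subset
    have h7 : (E H G i).card ≤ n.choose 2 := by
      unfold E
      have := (proc H G i).card_edgeFinset_le_card_choose_two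
      rwa [Fintype.card_fin] at this
    exact h6.trans h7
  have h6 : n.choose 2 ≤ n * n := by
    rw [Nat.choose_two_right]
    exact (Nat.div_le_self _ _).trans (Nat.mul_le_mul_left _ (Nat.sub_le _ _))
  have h7 : n < 2 ^ (Nat.log 2 n + 1) := Nat.lt_pow_succ_log_self (by norm_num) n
  have h8 : n * n < 4 ^ (Nat.log 2 n + 1) := by
    have h9 : (4 : ℕ) ^ (Nat.log 2 n + 1) = 2 ^ (Nat.log 2 n + 1) * 2 ^ (Nat.log 2 n + 1) := by
      rw [← mul_pow]
      norm_num
    rw [h9]
    exact Nat.mul_lt_mul'' h7 h7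
  omega

theorem log_bound (n : ℕ) (hn : 2 ≤ n) :
    ((Nat.log 2 n + 1 : ℕ) : ℝ) ^ 2 ≤ ((2 / Real.log 2) * Real.log n) ^ 2 := by
  have hlog2 : 0 < Real.log 2 := Real.log_pos (by norm_num)
  have hlogn : Real.log 2 ≤ Real.log n := Real.log_le_log (by norm_num) (by exact_mod_cast hn)
  have hL : ((Nat.log 2 n + 1 : ℕ) : ℝ) ≤ (2 / Real.log 2) * Real.log n := by
    have h5 : ((Nat.log 2 n : ℕ) : ℝ) * Real.log 2 ≤ Real.log n := by
      rw [← Real.log_pow]
      apply Real.log_le_log (by positivity)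
      have := Nat.pow_log_le_self 2 (by omega : n ≠ 0)
      exact_mod_cast this
    push_cast
    rw [div_mul_eq_mul_div, le_div_iff₀ hlog2]
    linarith
  exact pow_le_pow_left₀ (by positivity) hL 2

/-- The polylogarithmic upper bound. -/
theorem polylog [Fintype W] (H : SimpleGraph W) (h3 : 3 ≤ H.edgeFinset.card) :
    ∃ C : ℝ, ∀ n : ℕ, 2 ≤ n → ∀ e ∈ H.edgeSet,
      (maxTime H n : ℝ) ≤ C * Real.log n ^ 2 * (extremalNumber n (H.deleteEdges {e}) : ℝ) := by
  refine ⟨512 * (2 + 3 * (Fintype.card W : ℝ)) * (2 / Real.log 2) ^ 2, ?_⟩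
  intro n hn e he
  have hn1 : 0 < n := by omega
  have hn0 : (0 : ℝ) < n := by exact_mod_cast hn1
  have hCB0 : (0 : ℝ) ≤ 2 + 3 * (Fintype.card W : ℝ) := by positivity
  apply maxTime_le_of
  · positivity
  · intro G hpos
    have hA0 : 0 ≤ (2 + 3 * (Fintype.card W : ℝ)) *
        (extremalNumber n (H.deleteEdges {e}) : ℝ) / n := by positivity
    have hb : ∀ P : Finset (Fin n), ((sel (Fr H G) (Wn H G) (runningTime H G) P).card : ℝ) ≤
        ((2 + 3 * (Fintype.card W : ℝ)) *
        (extremalNumber n (H.deleteEdges {e}) : ℝ) / n) * (P.card : ℝ) := by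
      intro P
      have h4 := sel_card_le H G e he h3 (runningTime H G) P
      have h5 : ((sel (Fr H G) (Wn H G) (runningTime H G) P).card : ℝ) ≤
          (extremalNumber P.card (H.deleteEdges {e}) : ℝ) := by exact_mod_cast h4
      have hPn : P.card ≤ n := by
        have := card_le_univ P
        rwa [Fintype.card_fin] at this
      exact h5.trans (growth_real (H.deleteEdges {e}) (two_le_delete H e he h3 _) P.card n hn1 hPn)
    have key := time_bound_one (runningTime H G) (Fr H G) (Wn H G) (Fr_subset_Wn H G)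
      (Wn_not_diag H G) (Fr_disjoint H G) _ hA0 hb (Fr_pos H G) (Fr_zero H G) (Fr_end H G hpos)
      (fun i hi => Wn_card H G i (mem_Icc.1 hi).1) (Nat.log 2 n + 1)
      (fun i _ => card_Fr_lt H G i)
    rw [Fintype.card_fin, div_mul_cancel₀ _ hn0.ne'] at key
    have hL2 := log_bound n hn
    calc (runningTime H G : ℝ) ≤ _ := key
      _ ≤ ((2 / Real.log 2) * Real.log n) ^ 2 * (512 * ((2 + 3 * (Fintype.card W : ℝ)) *
        (extremalNumber n (H.deleteEdges {e}) : ℝ))) :=
          mul_le_mul_of_nonneg_right hL2 (by positivity)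
      _ = _ := by ring

/-- The bound without logarithms for majorants of regular growth. -/
theorem regular [Fintype W] (H : SimpleGraph W) (h3 : 3 ≤ H.edgeFinset.card) (e : Sym2 W)
    (he : e ∈ H.edgeSet) (g : ℕ → ℝ) (A δ : ℝ) (hδ : 0 < δ)
    (hex : ∀ m : ℕ, (extremalNumber m (H.deleteEdges {e}) : ℝ) ≤ g m)
    (hreg : ∀ m n : ℕ, 1 ≤ m → m ≤ n → g m * ((n : ℝ) / m) ^ (1 + δ) ≤ A * g n) :
    ∃ C : ℝ, ∀ n : ℕ, (maxTime H n : ℝ) ≤ C * g n := by
  set α := min (1 + δ) 2 with hα
  have hα1 : 1 < α := lt_min (by linarith) (by norm_num)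
  have hα2 : α ≤ 2 := min_le_right _ _
  obtain ⟨C, hC0, hC⟩ := time_bound_linear α hα1 hα2
  have hg : ∀ m, 0 ≤ g m := fun m => le_trans (by positivity) (hex m)
  set A' := max A 0 with hA'
  have hA'0 : 0 ≤ A' := le_max_right _ _
  refine ⟨C * A', ?_⟩
  intro n
  apply maxTime_le_of
  · have := hg n
    positivity
  · intro G hpos
    have hn := pos_of_runningTime H n G hpos
    have hn0 : (0 : ℝ) < n := by exact_mod_cast hn
    have hnα : (0 : ℝ) < (n : ℝ) ^ α := Real.rpow_pos_of_pos hn0 _
    have hgn := hg n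
    have key := hC (A' * g n / (n : ℝ) ^ α) (by positivity) (Fin n) (runningTime H G) (Fr H G)
      (Wn H G) (by simpa using hn) (Fr_subset_Wn H G) (Wn_not_diag H G) (Fr_disjoint H G) ?_
      (Fr_pos H G) (Fr_zero H G) (Fr_end H G hpos)
      (fun i hi => Wn_card H G i (mem_Icc.1 hi).1)
    · rw [Fintype.card_fin, div_mul_cancel₀ _ hnα.ne'] at key
      calc (runningTime H G : ℝ) ≤ _ := key
        _ = _ := by ring
    · intro P
      have h4 := sel_card_le H G e he h3 (runningTime H G) P
      have h5 : ((sel (Fr H G) (Wn H G) (runningTime H G) P).card : ℝ) ≤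
          (extremalNumber P.card (H.deleteEdges {e}) : ℝ) := by exact_mod_cast h4
      refine h5.trans ?_
      rcases Nat.eq_zero_or_pos P.card with h0 | hP
      · rw [h0, ex_zero, Nat.cast_zero, Real.zero_rpow (by linarith), mul_zero]
      · refine (hex P.card).trans ?_
        have hPn : P.card ≤ n := by
          have := card_le_univ P
          rwa [Fintype.card_fin] at this
        have h6 := hreg P.card n hP hPn
        have hP0 : (0 : ℝ) < (P.card : ℝ) := by exact_mod_cast hP
        have hPα : (0 : ℝ) < (P.card : ℝ) ^ α := Real.rpow_pos_of_pos hP0 _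
        have h7 : ((n : ℝ) / P.card) ^ α ≤ ((n : ℝ) / P.card) ^ (1 + δ) := by
          apply Real.rpow_le_rpow_of_exponent_le
          · rw [le_div_iff₀ hP0, one_mul]
            exact_mod_cast hPn
          · exact min_le_left _ _
        have h8 : g P.card * ((n : ℝ) / P.card) ^ α ≤ A' * g n :=
          (mul_le_mul_of_nonneg_left h7 (hg _)).trans
            (h6.trans (mul_le_mul_of_nonneg_right (le_max_left _ _) hgn))
        rw [Real.div_rpow hn0.le hP0.le] at h8
        rw [div_mul_eq_mul_div, le_div_iff₀ hnα]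
        have h9 : g P.card * ((n : ℝ) ^ α / (P.card : ℝ) ^ α) * (P.card : ℝ) ^ α =
            g P.card * (n : ℝ) ^ α := by
          field_simp
        rw [← h9]
        exact mul_le_mul_of_nonneg_right h8 hPα.le

end Pool.Agent.H47.GeneralBounds
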