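import Mathlib

/-!
Graphs without an edge `uw` and a six-vertex path alternating between the neighbourhoods of `u`
and `w` have `O(n^{3/2})` edges.
-/

set_option autoImplicit false

namespace Pool.Agent.H47.ZTuran

open Finset SimpleGraph

section

variable {V : Type} [Fintype V] [DecidableEq V] (G : SimpleGraph V) [DecidableRel G.Adj]

/-- an edge `uw` and a path `p₁ … p₆` alternating between the neighbourhoods of `u` and `w` -/
def HasZ : Prop :=
  ∃ u w p1 p2 p3 p4 p5 p6 : V,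
    G.Adj u w ∧ G.Adj u p1 ∧ G.Adj u p3 ∧ G.Adj u p5 ∧ G.Adj w p2 ∧ G.Adj w p4 ∧ G.Adj w p6 ∧
    G.Adj p1 p2 ∧ G.Adj p2 p3 ∧ G.Adj p3 p4 ∧ G.Adj p4 p5 ∧ G.Adj p5 p6 ∧
    p1 ≠ w ∧ p3 ≠ w ∧ p5 ≠ w ∧ p2 ≠ u ∧ p4 ≠ u ∧ p6 ≠ u ∧
    p1 ≠ p3 ∧ p1 ≠ p4 ∧ p1 ≠ p5 ∧ p1 ≠ p6 ∧ p2 ≠ p4 ∧ p2 ≠ p5 ∧ p2 ≠ p6 ∧
    p3 ≠ p5 ∧ p3 ≠ p6 ∧ p4 ≠ p6

/-- pairs whose `f`-fibre is large -/
def flt (R : Finset (V × V)) (f : V × V → V) : Finset (V × V) :=
  R.filter (fun p => 5 < (R.filter (fun q => f q = f p)).card)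

theorem card_flt (R : Finset (V × V)) (f : V × V → V) (A : Finset V) (hA : ∀ p ∈ R, f p ∈ A) :
    R.card ≤ (flt R f).card + 5 * A.card := by
  have h1 : R.card = (flt R f).card +
      (R.filter (fun p => ¬ 5 < (R.filter (fun q => f q = f p)).card)).card := by
    unfold flt
    rw [card_filter_add_card_filter_not]
  rw [h1]
  apply Nat.add_le_add_left
  rw [mul_comm]
  refine (card_le_mul_card_image_of_maps_to (f := f) (t := A) ?_ 5 ?_).trans (by rw [mul_comm])
  · intro p hp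
    exact hA p (mem_filter.1 hp).1
  · intro a _
    rcases ((R.filter (fun p => ¬ 5 < (R.filter (fun q => f q = f p)).card)).filter
      (fun p => f p = a)).eq_empty_or_nonempty with h0 | ⟨p, hp⟩
    · rw [h0]; simp
    · rw [mem_filter, mem_filter] at hp
      obtain ⟨⟨hpR, hle⟩, hpa⟩ := hp
      push Not at hle
      refine (card_le_card ?_).trans hle
      intro q hq
      rw [mem_filter, mem_filter] at hq
      rw [mem_filter]
      exact ⟨hq.1.1, by rw [hq.2, hpa]⟩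

theorem exists_fst {R : Finset (V × V)} {p : V × V} (hp : p ∈ flt R Prod.fst) (S : Finset V)
    (hS : S.card ≤ 5) : ∃ y, y ∉ S ∧ (p.1, y) ∈ R := by
  unfold flt at hp
  rw [mem_filter] at hp
  by_contra hno
  push Not at hno
  have h1 : (R.filter (fun q => q.1 = p.1)).card ≤ S.card := by
    apply card_le_card_of_injOn Prod.snd
    · intro q hq
      rw [mem_coe, mem_filter] at hq
      by_contra hns
      exact hno q.2 hns (by rw [← hq.2]; exact hq.1)
    · intro q hq q' hq' h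
      rw [mem_coe, mem_filter] at hq hq'
      exact Prod.ext (hq.2.trans hq'.2.symm) h
  omega

theorem exists_snd {R : Finset (V × V)} {p : V × V} (hp : p ∈ flt R Prod.snd) (S : Finset V)
    (hS : S.card ≤ 5) : ∃ x, x ∉ S ∧ (x, p.2) ∈ R := by
  unfold flt at hp
  rw [mem_filter] at hp
  by_contra hno
  push Not at hno
  have h1 : (R.filter (fun q => q.2 = p.2)).card ≤ S.card := by
    apply card_le_card_of_injOn Prod.fst
    · intro q hq
      rw [mem_coe, mem_filter] at hq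
      by_contra hns
      exact hno q.1 hns (by rw [← hq.2]; exact hq.1)
    · intro q hq q' hq' h
      rw [mem_coe, mem_filter] at hq hq'
      exact Prod.ext h (hq.2.trans hq'.2.symm)
  omega

theorem flt_sub (R : Finset (V × V)) (f : V × V → V) : flt R f ⊆ R := filter_subset _ _

/-- the pairs closing a four-cycle with `uw` -/
def R (u w : V) : Finset (V × V) :=
  univ.filter (fun p : V × V => G.Adj u p.1 ∧ G.Adj w p.2 ∧ G.Adj p.1 p.2 ∧ p.1 ≠ w ∧ p.2 ≠ u)

theorem R_card_le (hZ : ¬ HasZ G) (u w : V) (h : G.Adj u w) :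
    (R G u w).card ≤ 10 * (G.degree u + G.degree w) := by
  set R0 := R G u w with hR0
  have hA : ∀ p ∈ R0, p.1 ∈ G.neighborFinset u := by
    intro p hp
    rw [hR0, R, mem_filter] at hp
    rw [SimpleGraph.mem_neighborFinset]
    exact hp.2.1
  have hB : ∀ p ∈ R0, p.2 ∈ G.neighborFinset w := by
    intro p hp
    rw [hR0, R, mem_filter] at hp
    rw [SimpleGraph.mem_neighborFinset]
    exact hp.2.2.1
  set R1 := flt R0 Prod.fst with hR1
  set R2 := flt R1 Prod.snd with hR2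
  set R3 := flt R2 Prod.fst with hR3
  set R4 := flt R3 Prod.snd with hR4
  have s1 : R1 ⊆ R0 := flt_sub _ _
  have s2 : R2 ⊆ R1 := flt_sub _ _
  have s3 : R3 ⊆ R2 := flt_sub _ _
  have s4 : R4 ⊆ R3 := flt_sub _ _
  have c1 := card_flt R0 Prod.fst _ hA
  have c2 := card_flt R1 Prod.snd _ (fun p hp => hB p (s1 hp))
  have c3 := card_flt R2 Prod.fst _ (fun p hp => hA p (s1 (s2 hp)))
  have c4 := card_flt R3 Prod.snd _ (fun p hp => hB p (s1 (s2 (s3 hp))))
  rw [← hR1] at c1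
  rw [← hR2] at c2
  rw [← hR3] at c3
  rw [← hR4] at c4
  rw [SimpleGraph.card_neighborFinset_eq_degree] at c1 c2 c3 c4
  rcases R4.eq_empty_or_nonempty with h0 | ⟨p, hp⟩
  · rw [h0, card_empty] at c4
    omega
  · exfalso
    obtain ⟨p1, p2⟩ := p
    have hc : ∀ a b c d : V, ({a, b, c, d} : Finset V).card ≤ 5 := by
      intro a b c d
      exact card_le_four.trans (by norm_num)
    obtain ⟨p3, h3, hp3⟩ := exists_snd (hR4 ▸ hp) {p1, p1, p1, p1} (hc _ _ _ _)
    obtain ⟨p4, h4, hp4⟩ := exists_fst (hR3 ▸ hp3) {p1, p2, p1, p1} (hc _ _ _ _)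
    obtain ⟨p5, h5, hp5⟩ := exists_snd (hR2 ▸ hp4) {p1, p2, p3, p1} (hc _ _ _ _)
    obtain ⟨p6, h6, hp6⟩ := exists_fst (hR1 ▸ hp5) {p1, p2, p3, p4} (hc _ _ _ _)
    simp only at hp3 hp4 hp5 hp6 h3 h4 h5 h6
    have m1 := s1 (s2 (s3 (s4 hp)))
    have m3 := s1 (s2 (s3 hp3))
    have m4 := s1 (s2 hp4)
    have m5 := s1 hp5
    rw [hR0, R, mem_filter] at m1 m3 m4 m5 hp6
    simp only [mem_univ, true_and, mem_insert, mem_singleton, not_or] at m1 m3 m4 m5 hp6 h3 h4 h5 h6
    apply hZ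
    refine ⟨u, w, p1, p2, p3, p4, p5, p6, h, m1.1, m3.1, m5.1, m1.2.1, m4.2.1, hp6.2.1,
      m1.2.2.1, m3.2.2.1.symm, m4.2.2.1, m5.2.2.1.symm, hp6.2.2.1, m1.2.2.2.1, m3.2.2.2.1,
      m5.2.2.2.1, m1.2.2.2.2, m4.2.2.2.2, hp6.2.2.2.2, ?_, ?_, ?_, ?_, ?_, ?_, ?_, ?_, ?_, ?_⟩
    · exact fun h => h3.1 h.symm
    · exact fun h => h4.1 h.symm
    · exact fun h => h5.1 h.symm
    · exact fun h => h6.1 h.symm
    · exact fun h => h4.2.1 h.symm
    · exact fun h => h5.2.1 h.symm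
    · exact fun h => h6.2.1 h.symm
    · exact fun h => h5.2.2.1 h.symm
    · exact fun h => h6.2.2.1 h.symm
    · exact fun h => h6.2.2.2 h.symm

/-- common neighbours -/
def cn (u b : V) : Finset V := G.neighborFinset u ∩ G.neighborFinset b

theorem double_count :
    ∑ q ∈ (univ : Finset (V × V)).filter (fun q => G.Adj q.1 q.2), (R G q.1 q.2).card =
    ∑ q ∈ (univ : Finset V).offDiag, ((cn G q.1 q.2).offDiag).card := by
  rw [← card_sigma, ← card_sigma]
  apply card_bij' (fun x _ => (⟨(x.1.1, x.2.2), (x.1.2, x.2.1)⟩ : (_ : V × V) × (V × V)))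
    (fun x _ => (⟨(x.1.1, x.2.1), (x.2.2, x.1.2)⟩ : (_ : V × V) × (V × V)))
  · rintro ⟨⟨u, w⟩, ⟨a, b⟩⟩ hx
    simp only [mem_sigma, mem_filter, mem_univ, true_and, R, mem_offDiag, cn, mem_inter,
      SimpleGraph.mem_neighborFinset] at hx ⊢
    obtain ⟨h1, h2, h3, h4, h5, h6⟩ := hx
    exact ⟨Ne.symm h6, ⟨h1, h3.symm⟩, ⟨h2, h4.symm⟩, Ne.symm h5⟩
  · rintro ⟨⟨u, b⟩, ⟨w, a⟩⟩ hx
    simp only [mem_sigma, mem_filter, mem_univ, true_and, R, mem_offDiag, cn, mem_inter,
      SimpleGraph.mem_neighborFinset] at hx ⊢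
    obtain ⟨h1, ⟨h2, h3⟩, ⟨h4, h5⟩, h6⟩ := hx
    exact ⟨h2, h4, h3.symm, h5.symm, Ne.symm h6, Ne.symm h1⟩
  · rintro ⟨⟨u, w⟩, ⟨a, b⟩⟩ _
    rfl
  · rintro ⟨⟨u, b⟩, ⟨w, a⟩⟩ _
    rfl

theorem codeg_count :
    ∑ q ∈ (univ : Finset V).offDiag, (cn G q.1 q.2).card =
    ∑ w : V, ((G.neighborFinset w).offDiag).card := by
  rw [← card_sigma, ← card_sigma]
  apply card_bij' (fun x _ => (⟨x.2, x.1⟩ : (_ : V) × (V × V)))
    (fun x _ => (⟨x.2, x.1⟩ : (_ : V × V) × V))
  · rintro ⟨⟨u, b⟩, w⟩ hx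
    simp only [mem_sigma, mem_univ, true_and, mem_offDiag, cn, mem_inter,
      SimpleGraph.mem_neighborFinset] at hx ⊢
    exact ⟨hx.2.1.symm, hx.2.2.symm, hx.1⟩
  · rintro ⟨w, ⟨u, b⟩⟩ hx
    simp only [mem_sigma, mem_univ, true_and, mem_offDiag, cn, mem_inter,
      SimpleGraph.mem_neighborFinset] at hx ⊢
    exact ⟨hx.2.2, hx.1.symm, hx.2.1.symm⟩
  · rintro ⟨⟨u, b⟩, w⟩ _
    rfl
  · rintro ⟨w, ⟨u, b⟩⟩ _
    rfl

theorem deg_sum :
    ∑ q ∈ (univ : Finset (V × V)).filter (fun q => G.Adj q.1 q.2),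
      (G.degree q.1 + G.degree q.2) = 2 * ∑ v : V, G.degree v ^ 2 := by
  rw [sum_filter, ← univ_product_univ, sum_product]
  have h1 : ∀ u : V, ∑ w : V, (if G.Adj u w then (G.degree u + G.degree w) else 0) =
      G.degree u ^ 2 + ∑ w : V, (if G.Adj u w then G.degree w else 0) := by
    intro u
    have h2 : ∀ w : V, (if G.Adj u w then (G.degree u + G.degree w) else 0) =
        (if G.Adj u w then G.degree u else 0) + (if G.Adj u w then G.degree w else 0) := by
      intro w; split_ifs <;> simp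
    simp only [h2]
    rw [sum_add_distrib]
    congr 1
    rw [← sum_filter, sum_const, smul_eq_mul, sq]
    congr 1
    rw [← SimpleGraph.card_neighborFinset_eq_degree]
    congr 1
    ext w
    simp
  simp only [h1]
  rw [sum_add_distrib, sum_comm]
  have h3 : ∀ w : V, ∑ u : V, (if G.Adj u w then G.degree w else 0) = G.degree w ^ 2 := by
    intro w
    rw [← sum_filter, sum_const, smul_eq_mul, sq]
    congr 1
    rw [← SimpleGraph.card_neighborFinset_eq_degree]
    congr 1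
    ext u
    simp [SimpleGraph.adj_comm]
  simp only [h3]
  ring

theorem edges_le (hZ : ¬ HasZ G) :
    (G.edgeFinset.card : ℝ) ≤ 3 * (Fintype.card V : ℝ) ^ (3 / 2 : ℝ) := by
  set m : ℝ := (Fintype.card V : ℝ) with hm
  set Q : ℝ := ∑ v : V, (G.degree v : ℝ) ^ 2 with hQ
  set s : ℝ := ∑ v : V, (G.degree v : ℝ) with hs
  have hs2 : s = 2 * G.edgeFinset.card := by
    rw [hs]
    have := G.sum_degrees_eq_twice_card_edges
    exact_mod_cast this
  have e1 : ∑ q ∈ (univ : Finset V).offDiag,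
      (((cn G q.1 q.2).card : ℝ) * ((cn G q.1 q.2).card - 1)) ≤ 20 * Q := by
    have h1 : (∑ q ∈ (univ : Finset V).offDiag, ((cn G q.1 q.2).offDiag).card : ℕ) ≤
        20 * ∑ v : V, G.degree v ^ 2 := by
      rw [← double_count]
      calc _ ≤ ∑ q ∈ (univ : Finset (V × V)).filter (fun q => G.Adj q.1 q.2),
            10 * (G.degree q.1 + G.degree q.2) := by
              apply sum_le_sum
              intro q hq
              exact R_card_le G hZ _ _ (mem_filter.1 hq).2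
        _ = 10 * (2 * ∑ v : V, G.degree v ^ 2) := by rw [← mul_sum, deg_sum]
        _ = _ := by ring
    have h2 : ((∑ q ∈ (univ : Finset V).offDiag, ((cn G q.1 q.2).offDiag).card : ℕ) : ℝ) ≤
        20 * Q := by
      rw [hQ]
      exact_mod_cast h1
    refine le_trans (le_of_eq ?_) h2
    push_cast
    apply sum_congr rfl
    intro q _
    rw [offDiag_card]
    have h3 : (cn G q.1 q.2).card ≤ (cn G q.1 q.2).card * (cn G q.1 q.2).card := Nat.le_mul_self _
    push_cast [Nat.cast_sub h3]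
    ring
  have e2 : ∑ q ∈ (univ : Finset V).offDiag, ((cn G q.1 q.2).card : ℝ) = Q - s := by
    have h1 := codeg_count G
    have h2 : ((∑ q ∈ (univ : Finset V).offDiag, (cn G q.1 q.2).card : ℕ) : ℝ) =
        ((∑ w : V, ((G.neighborFinset w).offDiag).card : ℕ) : ℝ) := by rw [h1]
    push_cast at h2
    rw [h2, hQ, hs, ← sum_sub_distrib]
    apply sum_congr rfl
    intro w _
    rw [offDiag_card, SimpleGraph.card_neighborFinset_eq_degree]
    have h3 : G.degree w ≤ G.degree w * G.degree w := Nat.le_mul_self _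
    push_cast [Nat.cast_sub h3]
    ring
  have e3 : (41 : ℝ) * (Q - s) ≤ 20 * Q + 441 * m ^ 2 := by
    rw [← e2, mul_sum]
    have h1 : ∀ q ∈ (univ : Finset V).offDiag, (41 : ℝ) * ((cn G q.1 q.2).card : ℝ) ≤
        (((cn G q.1 q.2).card : ℝ) * ((cn G q.1 q.2).card - 1)) + 441 := by
      intro q _
      nlinarith [sq_nonneg (((cn G q.1 q.2).card : ℝ) - 21)]
    refine (sum_le_sum h1).trans ?_
    rw [sum_add_distrib, sum_const, nsmul_eq_mul]
    have h2 : (((univ : Finset V).offDiag.card : ℕ) : ℝ) ≤ m ^ 2 := by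
      rw [offDiag_card, card_univ]
      have : Fintype.card V * Fintype.card V - Fintype.card V ≤ Fintype.card V ^ 2 := by
        rw [sq]; exact Nat.sub_le _ _
      rw [hm]
      exact_mod_cast this
    linarith
  have e4 : s ^ 2 ≤ m * Q := by
    have := sq_sum_le_card_mul_sum_sq (s := (univ : Finset V)) (f := fun v => (G.degree v : ℝ))
    rw [card_univ] at this
    exact this
  rcases Nat.eq_zero_or_pos (Fintype.card V) with h0 | hpos
  · have hm0 : m = 0 := by rw [hm, h0]; simp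
    have : s ^ 2 ≤ 0 := by rw [hm0, zero_mul] at e4; exact e4
    have hs0 : s = 0 := by nlinarith [sq_nonneg s]
    have : (G.edgeFinset.card : ℝ) = 0 := by linarith
    rw [this]
    positivity
  · have hm1 : (1 : ℝ) ≤ m := by rw [hm]; exact_mod_cast hpos
    set t := Real.sqrt m with ht
    have ht2 : t ^ 2 = m := Real.sq_sqrt (by linarith)
    have ht1 : 1 ≤ t := by
      rw [ht]; exact Real.one_le_sqrt.2 hm1
    have hpow : m ^ (3 / 2 : ℝ) = t ^ 3 := by
      rw [← ht2, ← Real.rpow_natCast t 2, ← Real.rpow_mul (by linarith), ← Real.rpow_natCast t 3]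
      congr 1
      norm_num
    rw [hpow]
    have hs0 : 0 ≤ s := by rw [hs2]; positivity
    by_contra hgt
    push Not at hgt
    have hsgt : 6 * t ^ 3 < s := by rw [hs2]; linarith
    have e5 : 21 * s ^ 2 ≤ 41 * m * s + 441 * m ^ 3 := by
      have h21 : 21 * Q ≤ 41 * s + 441 * m ^ 2 := by linarith
      have := mul_le_mul_of_nonneg_left h21 (by linarith : (0 : ℝ) ≤ m)
      nlinarith
    have h6 : m ^ 3 = t ^ 6 := by rw [← ht2]; ring
    rw [h6, ← ht2] at e5
    have h7 : t ^ 2 ≤ t ^ 3 := pow_le_pow_right₀ ht1 (by norm_num)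
    have h8 : 0 < t ^ 3 := by positivity
    have h9 : 85 * t ^ 3 ≤ 21 * s - 41 * t ^ 2 := by linarith
    have h10 : (6 * t ^ 3) * (85 * t ^ 3) < s * (21 * s - 41 * t ^ 2) := by
      apply mul_lt_mul'' hsgt _ (by positivity) (by positivity)
      linarith
    nlinarith
end

end Pool.Agent.H47.ZTuran
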