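import Mathlib
import Pool.Agent.H47.ZTuran

/-!
`K_{3,3}` minus an edge and the cube minus an edge are contained in the configuration `Z`.
-/

set_option autoImplicit false

namespace Pool.Agent.H47.ZContain

open Finset SimpleGraph Pool.Agent.H47.ZTuran

/-- the complete bipartite graph `K_{3,3}` -/
def K33 : SimpleGraph (Fin 3 ⊕ Fin 3) := completeBipartiteGraph (Fin 3) (Fin 3)

/-- the three-dimensional cube graph: 0-1 vectors of length 3, adjacent when they differ in
exactly one coordinate -/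
def Q3 : SimpleGraph (Fin 3 → Bool) where
  Adj x y := hammingDist x y = 1
  symm := ⟨fun x y h => by rwa [hammingDist_comm]⟩
  loopless := ⟨fun x h => by simp at h⟩

instance : DecidableRel K33.Adj := by
  unfold K33 completeBipartiteGraph; infer_instance

instance : DecidableRel Q3.Adj := fun x y => inferInstanceAs (Decidable (hammingDist x y = 1))

/-- edges of the configuration `Z` on `{0, …, 7}` (`0 = u`, `7 = w`, `i = p_i`) -/
def zl : List (Fin 8 × Fin 8) :=
  [(0, 7), (0, 1), (0, 3), (0, 5), (7, 2), (7, 4), (7, 6), (1, 2), (2, 3), (3, 4), (4, 5), (5, 6)]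

theorem exists_map {V : Type} (G : SimpleGraph V) (h : HasZ G) :
    ∃ φ : Fin 8 → V, Function.Injective φ ∧
      ∀ i j, ((i, j) ∈ zl ∨ (j, i) ∈ zl) → G.Adj (φ i) (φ j) := by
  obtain ⟨u, w, p1, p2, p3, p4, p5, p6, a1, a2, a3, a4, a5, a6, a7, a8, a9, a10, a11, a12,
    n1, n2, n3, n4, n5, n6, n7, n8, n9, n10, n11, n12, n13, n14, n15, n16⟩ := h
  refine ⟨![u, p1, p2, p3, p4, p5, p6, w], ?_, ?_⟩
  · have b1 := a1.ne
    have b2 := a2.ne
    have b3 := a3.ne
    have b4 := a4.ne
    have b5 := a5.ne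
    have b6 := a6.ne
    have b7 := a7.ne
    have b8 := a8.ne
    have b9 := a9.ne
    have b10 := a10.ne
    have b11 := a11.ne
    have b12 := a12.ne
    have key : ∀ i j : Fin 8, i < j →
        (![u, p1, p2, p3, p4, p5, p6, w] : Fin 8 → V) i ≠
        (![u, p1, p2, p3, p4, p5, p6, w] : Fin 8 → V) j := by
      intro i j hij
      fin_cases i <;> fin_cases j <;>
        first
        | (exfalso; revert hij; decide)
        | (simp; tauto)
    intro i j hij
    rcases lt_trichotomy i j with hlt | heq | hgt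
    · exact absurd hij (key i j hlt)
    · exact heq
    · exact absurd hij.symm (key j i hgt)
  · have key : ∀ i j, (i, j) ∈ zl → G.Adj ((![u, p1, p2, p3, p4, p5, p6, w] : Fin 8 → V) i)
        ((![u, p1, p2, p3, p4, p5, p6, w] : Fin 8 → V) j) := by
      intro i j hij
      simp only [zl, List.mem_cons, Prod.mk.injEq, List.not_mem_nil, or_false] at hij
      rcases hij with ⟨rfl, rfl⟩ | ⟨rfl, rfl⟩ | ⟨rfl, rfl⟩ | ⟨rfl, rfl⟩ | ⟨rfl, rfl⟩ | ⟨rfl, rfl⟩ |
        ⟨rfl, rfl⟩ | ⟨rfl, rfl⟩ | ⟨rfl, rfl⟩ | ⟨rfl, rfl⟩ | ⟨rfl, rfl⟩ | ⟨rfl, rfl⟩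
      · exact a1
      · exact a2
      · exact a3
      · exact a4
      · exact a5
      · exact a6
      · exact a7
      · exact a8
      · exact a9
      · exact a10
      · exact a11
      · exact a12
    intro i j hij
    rcases hij with h | h
    · exact key i j h
    · exact (key j i h).symm

/-- positions of the vertices of `K_{3,3}` in `Z` -/
def kidx : Fin 3 ⊕ Fin 3 → Fin 8
  | Sum.inl 0 => 4
  | Sum.inl 1 => 0
  | Sum.inl 2 => 2
  | Sum.inr 0 => 1
  | Sum.inr 1 => 7
  | Sum.inr 2 => 3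

/-- positions of the vertices of the cube in `Z` -/
def qidx (x : Fin 3 → Bool) : Fin 8 :=
  match x 0, x 1, x 2 with
  | false, false, false => 0
  | true, true, true => 7
  | true, false, false => 1
  | true, true, false => 2
  | false, true, false => 3
  | false, true, true => 4
  | false, false, true => 5
  | true, false, true => 6

/-- the removed edge of `K_{3,3}` -/
def ke : Sym2 (Fin 3 ⊕ Fin 3) := s(Sum.inl 0, Sum.inr 0)

/-- the removed edge of the cube -/
def qe : Sym2 (Fin 3 → Bool) := s(![true, false, true], ![true, false, false])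

theorem kidx_inj : Function.Injective kidx := by decide

theorem qidx_inj : Function.Injective qidx := by decide

theorem kidx_hom : ∀ x y, K33.Adj x y → s(x, y) ≠ ke →
    ((kidx x, kidx y) ∈ zl ∨ (kidx y, kidx x) ∈ zl) := by decide

set_option synthInstance.maxSize 1024 in
theorem qidx_hom : ∀ x y, Q3.Adj x y → s(x, y) ≠ qe →
    ((qidx x, qidx y) ∈ zl ∨ (qidx y, qidx x) ∈ zl) := by decide

theorem contained_of {V W : Type} (G : SimpleGraph V) (h : HasZ G) (H : SimpleGraph W)
    (e : Sym2 W) (idx : W → Fin 8) (hinj : Function.Injective idx)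
    (hom : ∀ x y, H.Adj x y → s(x, y) ≠ e → ((idx x, idx y) ∈ zl ∨ (idx y, idx x) ∈ zl)) :
    (H.deleteEdges {e}).IsContained G := by
  obtain ⟨φ, hφ, hadj⟩ := exists_map G h
  refine ⟨⟨⟨fun x => φ (idx x), ?_⟩, fun x y hxy => hinj (hφ hxy)⟩⟩
  intro x y hxy
  rw [SimpleGraph.deleteEdges_adj] at hxy
  exact hadj _ _ (hom x y hxy.1 (by simpa using hxy.2))

theorem extremal_le {W : Type} (H : SimpleGraph W)
    (e : Sym2 W) (idx : W → Fin 8) (hinj : Function.Injective idx)
    (hom : ∀ x y, H.Adj x y → s(x, y) ≠ e → ((idx x, idx y) ∈ zl ∨ (idx y, idx x) ∈ zl))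
    (m : ℕ) : (extremalNumber m (H.deleteEdges {e}) : ℝ) ≤ 3 * (m : ℝ) ^ (3 / 2 : ℝ) := by
  have h0 : (0 : ℝ) ≤ 3 * (m : ℝ) ^ (3 / 2 : ℝ) := by positivity
  have h1 := (SimpleGraph.extremalNumber_le_iff_of_nonneg (V := Fin m)
    (H.deleteEdges {e}) h0).2 ?_
  · simpa using h1
  · intro G _ hfree
    have hZ : ¬ HasZ G := fun hz => hfree (contained_of G hz H e idx hinj hom)
    have := edges_le G hZ
    simpa using this

end Pool.Agent.H47.ZContain
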